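import Pool.Agent.Helper249.RC.Base

set_option autoImplicit false
open MeasureTheory Set Filter Topology

namespace Pool.Agent.Helper249.RC

def d1abs_Inf {Ω : Type*} (p : ℕ → Ω → ℝ) (κ : ℝ) (k : ℕ → ℕ) : Set Ω :=
  {ω | ∀ N : ℕ, ∃ i, N ≤ i ∧ 2 * κ ≤ |p (k (i + 1)) ω - p (k i) ω|}

def d1abs_Play {X : Type*} [PseudoMetricSpace X] (q : ℕ → X) (r : ℕ → ℕ → ℝ) (i0 : ℕ)
    (k : ℕ → ℕ) : Prop :=
  Monotone k ∧ ∀ i, i0 ≤ i → ∀ m, i < m → dist (q (k m)) (q (k i)) < r i (k i)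

def d1abs_A {Ω X : Type*} [MeasurableSpace Ω] [PseudoMetricSpace X] (μ : Measure Ω) (q : ℕ → X)
    (p : ℕ → Ω → ℝ) (κ : ℝ) (E : ℕ → Set Ω) : Prop :=
  ∀ ε : ℕ → ℝ, (∀ i, 0 < ε i) → ∃ r : ℕ → ℕ → ℝ, (∀ i j, 0 < r i j) ∧
    ∀ i0 k, d1abs_Play q r i0 k → μ.real (d1abs_Inf p κ k ∩ (E (k i0))ᶜ) ≤ ε i0

def d1abs_D {Ω X : Type*} [PseudoMetricSpace X] (q : ℕ → X)
    (p : ℕ → Ω → ℝ) (κ : ℝ) (E : ℕ → Set Ω) (k : ℕ) : Set Ω :=
  {ω | ω ∈ E k ∧ ∀ j : ℕ, ∃ k', dist (q k') (q k) < 1 / ((j : ℝ) + 1) ∧ ω ∈ E k' ∧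
    κ ≤ |p k' ω - p k ω|}

def d1abs_G {Ω X : Type*} [PseudoMetricSpace X] (q : ℕ → X)
    (p : ℕ → Ω → ℝ) (κ : ℝ) (E : ℕ → Set Ω) (k j : ℕ) : Set Ω :=
  {ω | ω ∈ E k ∧ ∀ k', dist (q k') (q k) < 1 / ((j : ℝ) + 1) → ω ∈ E k' →
    |p k' ω - p k ω| < κ}

section D1
variable {Ω X : Type*} [MeasurableSpace Ω] [PseudoMetricSpace X] {μ : Measure Ω}
    [IsProbabilityMeasure μ] {q : ℕ → X} {p : ℕ → Ω → ℝ} {κ : ℝ}

omit [PseudoMetricSpace X] in
theorem d1abs_union (S : ℕ → Set Ω) (a : ℝ) (ha : 0 ≤ a)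
    (h : ∀ m, μ.real (S m) ≤ a * (1 / 2) ^ m) : μ.real (⋃ m, S m) ≤ 2 * a := by
  have hs : Summable (fun m : ℕ => a * (1 / 2 : ℝ) ^ m) :=
    (summable_geometric_of_lt_one (by norm_num) (by norm_num)).mul_left a
  have ht : ∑' m : ℕ, a * (1 / 2 : ℝ) ^ m = 2 * a := by
    rw [tsum_mul_left, tsum_geometric_two]
    ring
  have h1 : μ (⋃ m, S m) ≤ ENNReal.ofReal (2 * a) := by
    calc μ (⋃ m, S m) ≤ ∑' m, μ (S m) := measure_iUnion_le S
      _ ≤ ∑' m : ℕ, ENNReal.ofReal (a * (1 / 2) ^ m) := by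
        apply ENNReal.tsum_le_tsum
        intro m
        rw [← ofReal_measureReal (measure_ne_top μ _)]
        exact ENNReal.ofReal_le_ofReal (h m)
      _ = ENNReal.ofReal (2 * a) := by
        rw [← ENNReal.ofReal_tsum_of_nonneg (fun m => by positivity) hs, ht]
  exact ENNReal.toReal_le_of_le_ofReal (by positivity) h1

omit [PseudoMetricSpace X] in
theorem d1abs_small (S : ℕ → Set Ω) (hS : ∀ j, MeasurableSet (S j)) (ha : Antitone S)
    (he : ⋂ j, S j = ∅) {ε : ℝ} (hε : 0 < ε) : ∃ j, μ.real (S j) ≤ ε := by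
  have h := tendsto_measure_iInter_atTop (μ := μ) (fun j => (hS j).nullMeasurableSet) ha
    ⟨0, measure_ne_top μ _⟩
  rw [he, measure_empty] at h
  have h2 := h.eventually (gt_mem_nhds (ENNReal.ofReal_pos.2 hε))
  obtain ⟨j, hj⟩ := h2.exists
  refine ⟨j, ?_⟩
  exact ENNReal.toReal_le_of_le_ofReal hε.le hj.le

theorem d1abs_play_mono {r r' : ℕ → ℕ → ℝ} {i0 : ℕ} {k : ℕ → ℕ}
    (h : ∀ i j, r' i j ≤ r i j) (hp : d1abs_Play q r' i0 k) : d1abs_Play q r i0 k :=
  ⟨hp.1, fun i hi m hm => (hp.2 i hi m hm).trans_le (h _ _)⟩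

theorem d1abs_play_shift {r : ℕ → ℕ → ℝ} {i0 i1 : ℕ} {k : ℕ → ℕ}
    (h : i0 ≤ i1) (hp : d1abs_Play q r i0 k) : d1abs_Play q r i1 k :=
  ⟨hp.1, fun i hi m hm => hp.2 i (h.trans hi) m hm⟩

theorem d1abs_univ : d1abs_A μ q p κ (fun _ => univ) := by
  intro ε hε
  refine ⟨fun _ _ => 1, fun _ _ => one_pos, fun i0 k _ => ?_⟩
  simp only [compl_univ, inter_empty, measureReal_empty]
  exact (hε i0).le

theorem d1abs_inter {E E' : ℕ → Set Ω} (h : d1abs_A μ q p κ E) (h' : d1abs_A μ q p κ E') :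
    d1abs_A μ q p κ (fun k => E k ∩ E' k) := by
  intro ε hε
  obtain ⟨r, hr, hr'⟩ := h (fun i => ε i / 2) (fun i => half_pos (hε i))
  obtain ⟨s, hs, hs'⟩ := h' (fun i => ε i / 2) (fun i => half_pos (hε i))
  refine ⟨fun i j => min (r i j) (s i j), fun i j => lt_min (hr i j) (hs i j), ?_⟩
  intro i0 k hk
  have h1 := hr' i0 k (d1abs_play_mono (fun i j => min_le_left _ _) hk)
  have h2 := hs' i0 k (d1abs_play_mono (fun i j => min_le_right _ _) hk)
  have hsub : d1abs_Inf p κ k ∩ (E (k i0) ∩ E' (k i0))ᶜ ⊆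
      (d1abs_Inf p κ k ∩ (E (k i0))ᶜ) ∪ (d1abs_Inf p κ k ∩ (E' (k i0))ᶜ) := by
    rintro ω ⟨hω, hω'⟩
    by_cases hE : ω ∈ E (k i0)
    · right
      refine ⟨hω, fun hE' => hω' ⟨hE, hE'⟩⟩
    · left
      exact ⟨hω, hE⟩
  calc μ.real (d1abs_Inf p κ k ∩ (E (k i0) ∩ E' (k i0))ᶜ)
      ≤ μ.real ((d1abs_Inf p κ k ∩ (E (k i0))ᶜ) ∪ (d1abs_Inf p κ k ∩ (E' (k i0))ᶜ)) :=
        measureReal_mono hsub (measure_ne_top μ _)
    _ ≤ _ := measureReal_union_le _ _
    _ ≤ ε i0 := by linarith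

theorem d1abs_D_sub (E : ℕ → Set Ω) (k : ℕ) : d1abs_D q p κ E k ⊆ E k := fun _ h => h.1

theorem d1abs_D_meas (hp : ∀ k, Measurable (p k)) {E : ℕ → Set Ω}
    (hE : ∀ k, MeasurableSet (E k)) (k : ℕ) : MeasurableSet (d1abs_D q p κ E k) := by
  have e : d1abs_D q p κ E k = E k ∩ ⋂ j : ℕ, ⋃ k' : ℕ,
      ({ω | dist (q k') (q k) < 1 / ((j : ℝ) + 1)} ∩ (E k' ∩ {ω | κ ≤ |p k' ω - p k ω|})) := by
    ext ω
    simp only [d1abs_D, mem_ofPred_eq, mem_inter_iff, mem_iInter, mem_iUnion]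
  rw [e]
  refine (hE k).inter (MeasurableSet.iInter fun j => MeasurableSet.iUnion fun k' => ?_)
  refine (MeasurableSet.const _).inter ((hE k').inter ?_)
  exact measurableSet_le measurable_const (((hp k').sub (hp k)).abs)

theorem d1abs_G_meas (hp : ∀ k, Measurable (p k)) {E : ℕ → Set Ω}
    (hE : ∀ k, MeasurableSet (E k)) (k j : ℕ) : MeasurableSet (d1abs_G q p κ E k j) := by
  have e : d1abs_G q p κ E k j = E k ∩ ⋂ k' : ℕ,
      ({ω | dist (q k') (q k) < 1 / ((j : ℝ) + 1)}ᶜ ∪ ((E k')ᶜ ∪ {ω | |p k' ω - p k ω| < κ})) := by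
    ext ω
    simp only [d1abs_G, mem_ofPred_eq, mem_inter_iff, mem_iInter, mem_union, mem_compl_iff]
    constructor
    · rintro ⟨h1, h2⟩
      refine ⟨h1, fun k' => ?_⟩
      by_cases ha : dist (q k') (q k) < 1 / ((j : ℝ) + 1)
      · by_cases hb : ω ∈ E k'
        · exact Or.inr (Or.inr (h2 k' ha hb))
        · exact Or.inr (Or.inl hb)
      · exact Or.inl ha
    · rintro ⟨h1, h2⟩
      refine ⟨h1, fun k' ha hb => ?_⟩
      rcases h2 k' with h | h | h
      · exact absurd ha h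
      · exact absurd hb h
      · exact h
  rw [e]
  refine (hE k).inter (MeasurableSet.iInter fun k' => ?_)
  refine (MeasurableSet.const _).compl.union ((hE k').compl.union ?_)
  exact measurableSet_lt (((hp k').sub (hp k)).abs) measurable_const

theorem d1abs_deriv (hκ : 0 < κ) (hp : ∀ k, Measurable (p k)) {E : ℕ → Set Ω}
    (hE : ∀ k, MeasurableSet (E k)) (hA : d1abs_A μ q p κ E) :
    d1abs_A μ q p κ (d1abs_D q p κ E) := by
  intro ε hε
  -- the auxiliary sequence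
  let e : ℕ → ℝ := fun m => Nat.rec (ε 0 / 4) (fun m x => min (x / 2) (ε (m + 1) / 4)) m
  have e0 : e 0 = ε 0 / 4 := rfl
  have es : ∀ m, e (m + 1) = min (e m / 2) (ε (m + 1) / 4) := fun m => rfl
  have epos : ∀ m, 0 < e m := by
    intro m
    induction m with
    | zero => rw [e0]; linarith [hε 0]
    | succ m ih => rw [es]; exact lt_min (by linarith) (by linarith [hε (m + 1)])
  have ele : ∀ m, e m ≤ ε m / 4 := by
    intro m
    cases m with
    | zero => exact e0.le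
    | succ m => rw [es]; exact min_le_right _ _
  have ehalf : ∀ i j, e (i + j) ≤ e i * (1 / 2) ^ j := by
    intro i j
    induction j with
    | zero => simp
    | succ j ih =>
      rw [← add_assoc, es]
      refine (min_le_left _ _).trans ?_
      rw [pow_succ]
      linarith
  obtain ⟨r, hr, hr'⟩ := hA e epos
  have hG : ∀ i k, ∃ j, μ.real ((E k \ d1abs_D q p κ E k) \ d1abs_G q p κ E k j) ≤ ε i / 2 := by
    intro i k
    apply d1abs_small (μ := μ) (fun j => (E k \ d1abs_D q p κ E k) \ d1abs_G q p κ E k j)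
    · intro j
      exact ((hE k).diff (d1abs_D_meas hp hE k)).diff (d1abs_G_meas hp hE k j)
    · intro j j' hjj ω hω
      refine ⟨hω.1, fun hg => hω.2 ⟨hg.1, fun k' hd hk' => hg.2 k' (hd.trans_le ?_) hk'⟩⟩
      apply one_div_le_one_div_of_le (by positivity)
      have : (j : ℝ) ≤ j' := by exact_mod_cast hjj
      linarith
    · apply eq_empty_of_forall_notMem
      intro ω hω
      rw [mem_iInter] at hω
      have h0 := (hω 0).1
      apply h0.2
      refine ⟨h0.1, fun j => ?_⟩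
      by_contra hcon
      push Not at hcon
      exact (hω j).2 ⟨h0.1, fun k' hd hk' => hcon k' hd hk'⟩
    · exact half_pos (hε i)
  choose jj hjj using hG
  refine ⟨fun i k => min (r i k) (1 / ((jj i k : ℝ) + 1)), fun i k => lt_min (hr i k)
    (by positivity), ?_⟩
  intro i0 k hk
  have hkr := d1abs_play_mono (fun i j => min_le_left (r i j) _) hk
  have hsub : d1abs_Inf p κ k ∩ (d1abs_D q p κ E (k i0))ᶜ ⊆
      (⋃ m, d1abs_Inf p κ k ∩ (E (k (i0 + m)))ᶜ) ∪
      ((E (k i0) \ d1abs_D q p κ E (k i0)) \ d1abs_G q p κ E (k i0) (jj i0 (k i0))) := by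
    rintro ω ⟨hω, hω'⟩
    by_cases hm : ∃ m, ω ∉ E (k (i0 + m))
    · obtain ⟨m, hm⟩ := hm
      left
      exact mem_iUnion.2 ⟨m, hω, hm⟩
    · push Not at hm
      right
      have h0 : ω ∈ E (k i0) := hm 0
      refine ⟨⟨h0, hω'⟩, fun hg => ?_⟩
      have hclose : ∀ m, i0 ≤ m → |p (k m) ω - p (k i0) ω| < κ := by
        intro m hm0
        rcases hm0.eq_or_lt with h | h
        · rw [← h, sub_self, abs_zero]
          exact hκ
        · obtain ⟨t, rfl⟩ := Nat.exists_eq_add_of_le hm0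
          exact hg.2 _ ((hk.2 i0 le_rfl _ h).trans_le (min_le_right _ _)) (hm t)
      obtain ⟨i, hi, hi'⟩ := hω i0
      have h1 := hclose i hi
      have h2 := hclose (i + 1) (by omega)
      have h3 : |p (k (i + 1)) ω - p (k i) ω| ≤
          |p (k (i + 1)) ω - p (k i0) ω| + |p (k i) ω - p (k i0) ω| := by
        have : p (k (i + 1)) ω - p (k i) ω =
          (p (k (i + 1)) ω - p (k i0) ω) - (p (k i) ω - p (k i0) ω) := by ring
        rw [this]
        exact abs_sub _ _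
      linarith
  have hU : μ.real (⋃ m, d1abs_Inf p κ k ∩ (E (k (i0 + m)))ᶜ) ≤ 2 * e i0 := by
    apply d1abs_union _ _ (epos i0).le
    intro m
    exact (hr' (i0 + m) k (d1abs_play_shift (Nat.le_add_right _ _) hkr)).trans (ehalf i0 m)
  calc μ.real (d1abs_Inf p κ k ∩ (d1abs_D q p κ E (k i0))ᶜ) ≤ _ :=
        measureReal_mono hsub (measure_ne_top μ _)
    _ ≤ _ := measureReal_union_le _ _
    _ ≤ ε i0 := by
      have := hjj i0 (k i0)
      have := ele i0
      linarith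

theorem d1abs_iInter {E : ℕ → ℕ → Set Ω}
    (hE : ∀ l k, MeasurableSet (E l k)) (hanti : ∀ k, Antitone (fun l => E l k))
    (hA : ∀ l, d1abs_A μ q p κ (E l)) :
    d1abs_A μ q p κ (fun k => ⋂ l, E l k) := by
  intro ε hε
  have hl : ∀ i k, ∃ l, μ.real (E l k \ ⋂ l, E l k) ≤ ε i / 2 := by
    intro i k
    apply d1abs_small (μ := μ) (fun l => E l k \ ⋂ l, E l k)
    · intro l
      exact (hE l k).diff (MeasurableSet.iInter fun l => hE l k)
    · intro l l' hll ω hω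
      exact ⟨hanti k hll hω.1, hω.2⟩
    · apply eq_empty_of_forall_notMem
      intro ω hω
      rw [mem_iInter] at hω
      exact (hω 0).2 (mem_iInter.2 fun l => (hω l).1)
    · exact half_pos (hε i)
  choose l hl using hl
  choose R hR hR' using fun l => hA l (fun i => ε i / 2) (fun i => half_pos (hε i))
  have hmin : ∀ (L j k : ℕ), ∃ ρ > 0, ∀ l, l ≤ L → ρ ≤ R l j k := by
    intro L j k
    induction L with
    | zero =>
      refine ⟨R 0 j k, hR 0 j k, fun l hl => ?_⟩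
      rw [Nat.le_zero.1 hl]
    | succ L ih =>
      obtain ⟨ρ, hρ, hρ'⟩ := ih
      refine ⟨min ρ (R (L + 1) j k), lt_min hρ (hR _ _ _), fun l hl => ?_⟩
      rcases Nat.le_succ_iff.1 hl with h | h
      · exact (min_le_left _ _).trans (hρ' l h)
      · rw [h]
        exact min_le_right _ _
  let L : ℕ → ℕ → ℕ := fun j k =>
    (Finset.range (j + 1) ×ˢ Finset.range (k + 1)).sup (fun x => l x.1 x.2)
  choose ρ hρ hρ' using fun j k => hmin (L j k) j k
  refine ⟨ρ, hρ, ?_⟩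
  intro i0 k hk
  have hplay : d1abs_Play q (R (l i0 (k i0))) i0 k := by
    refine ⟨hk.1, fun i hi m hm => (hk.2 i hi m hm).trans_le (hρ' i (k i) _ ?_)⟩
    have : (i0, k i0) ∈ Finset.range (i + 1) ×ˢ Finset.range (k i + 1) := by
      rw [Finset.mem_product, Finset.mem_range, Finset.mem_range]
      exact ⟨Nat.lt_succ_of_le hi, Nat.lt_succ_of_le (hk.1 hi)⟩
    exact Finset.le_sup (f := fun x : ℕ × ℕ => l x.1 x.2) this
  have h1 := hR' (l i0 (k i0)) i0 k hplay
  have h2 := hl i0 (k i0)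
  have hsub : d1abs_Inf p κ k ∩ (⋂ l, E l (k i0))ᶜ ⊆
      (d1abs_Inf p κ k ∩ (E (l i0 (k i0)) (k i0))ᶜ) ∪
      (E (l i0 (k i0)) (k i0) \ ⋂ l, E l (k i0)) := by
    rintro ω ⟨hω, hω'⟩
    by_cases h : ω ∈ E (l i0 (k i0)) (k i0)
    · exact Or.inr ⟨h, hω'⟩
    · exact Or.inl ⟨hω, h⟩
  calc μ.real (d1abs_Inf p κ k ∩ (⋂ l, E l (k i0))ᶜ) ≤ _ :=
        measureReal_mono hsub (measure_ne_top μ _)
    _ ≤ _ := measureReal_union_le _ _
    _ ≤ ε i0 := by linarith

noncomputable def d1abs_c (μ : Measure Ω) (E : ℕ → Set Ω) : ℝ :=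
  ∑' k : ℕ, (1 / 2 : ℝ) ^ k * μ.real (E k)

omit [PseudoMetricSpace X] in
theorem d1abs_c_summable (E : ℕ → Set Ω) :
    Summable (fun k : ℕ => (1 / 2 : ℝ) ^ k * μ.real (E k)) := by
  apply Summable.of_nonneg_of_le (fun k => by positivity) _
    (summable_geometric_of_lt_one (by norm_num : (0:ℝ) ≤ 1 / 2) (by norm_num))
  intro k
  have : μ.real (E k) ≤ 1 := measureReal_le_one
  have h2 : (0:ℝ) ≤ (1 / 2 : ℝ) ^ k := by positivity
  nlinarith

omit [PseudoMetricSpace X] in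
theorem d1abs_c_mono {E E' : ℕ → Set Ω} (h : ∀ k, E k ⊆ E' k) :
    d1abs_c μ E ≤ d1abs_c μ E' := by
  apply Summable.tsum_le_tsum _ (d1abs_c_summable E) (d1abs_c_summable E')
  intro k
  exact mul_le_mul_of_nonneg_left (measureReal_mono (h k) (measure_ne_top μ _)) (by positivity)

omit [PseudoMetricSpace X] in
theorem d1abs_c_eq {E E' : ℕ → Set Ω} (h : ∀ k, E k ⊆ E' k)
    (hc : d1abs_c μ E' ≤ d1abs_c μ E) (k : ℕ) : μ.real (E k) = μ.real (E' k) := by
  by_contra hne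
  have hle : μ.real (E k) ≤ μ.real (E' k) := measureReal_mono (h k) (measure_ne_top μ _)
  have hlt : μ.real (E k) < μ.real (E' k) := lt_of_le_of_ne hle hne
  have : d1abs_c μ E < d1abs_c μ E' := by
    apply Summable.tsum_lt_tsum (i := k) _ _ (d1abs_c_summable E) (d1abs_c_summable E')
    · intro k
      exact mul_le_mul_of_nonneg_left (measureReal_mono (h k) (measure_ne_top μ _)) (by positivity)
    · exact mul_lt_mul_of_pos_left hlt (by positivity)
  linarith

theorem d1abs_min (hκ : 0 < κ) (hp : ∀ k, Measurable (p k)) :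
    ∃ E : ℕ → Set Ω, (∀ k, MeasurableSet (E k)) ∧ d1abs_A μ q p κ E ∧
      ∀ k, μ.real (d1abs_D q p κ E k) = μ.real (E k) := by
  let V : Set ℝ := {c | ∃ E : ℕ → Set Ω, (∀ k, MeasurableSet (E k)) ∧ d1abs_A μ q p κ E ∧
    d1abs_c μ E = c}
  have hV0 : V.Nonempty := ⟨_, fun _ => univ, fun _ => MeasurableSet.univ, d1abs_univ, rfl⟩
  have hVb : BddBelow V := by
    refine ⟨0, ?_⟩
    rintro c ⟨E, _, _, rfl⟩
    exact tsum_nonneg fun k => by positivity
  have hex : ∀ l : ℕ, ∃ E : ℕ → Set Ω, (∀ k, MeasurableSet (E k)) ∧ d1abs_A μ q p κ E ∧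
      d1abs_c μ E < sInf V + 1 / ((l : ℝ) + 1) := by
    intro l
    obtain ⟨c, ⟨E, h1, h2, h3⟩, hc⟩ := exists_lt_of_csInf_lt hV0
      (lt_add_of_pos_right (sInf V) (by positivity : (0:ℝ) < 1 / ((l : ℝ) + 1)))
    exact ⟨E, h1, h2, by rw [h3]; exact hc⟩
  choose E hE1 hE2 hE3 using hex
  let F : ℕ → ℕ → Set Ω := fun l => Nat.rec (E 0) (fun l F k => F k ∩ E (l + 1) k) l
  have F0 : F 0 = E 0 := rfl
  have Fs : ∀ l, F (l + 1) = fun k => F l k ∩ E (l + 1) k := fun l => rfl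
  have hFm : ∀ l k, MeasurableSet (F l k) := by
    intro l
    induction l with
    | zero => intro k; rw [F0]; exact hE1 0 k
    | succ l ih => intro k; rw [Fs]; exact (ih k).inter (hE1 _ k)
  have hFA : ∀ l, d1abs_A μ q p κ (F l) := by
    intro l
    induction l with
    | zero => rw [F0]; exact hE2 0
    | succ l ih => rw [Fs]; exact d1abs_inter ih (hE2 _)
  have hFE : ∀ l k, F l k ⊆ E l k := by
    intro l k
    cases l with
    | zero => rw [F0]
    | succ l => rw [Fs]; exact inter_subset_right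
  have hFanti : ∀ k, Antitone (fun l => F l k) := by
    intro k
    apply antitone_nat_of_succ_le
    intro l
    rw [Fs]
    exact inter_subset_left
  have hG := d1abs_iInter hFm hFanti hFA
  have hGm : ∀ k, MeasurableSet (⋂ l, F l k) := fun k => MeasurableSet.iInter fun l => hFm l k
  refine ⟨fun k => ⋂ l, F l k, hGm, hG, ?_⟩
  have hcG : d1abs_c μ (fun k => ⋂ l, F l k) ≤ sInf V := by
    apply le_of_forall_pos_lt_add
    intro ε hε
    obtain ⟨l, hl⟩ := exists_nat_one_div_lt hε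
    have h1 : d1abs_c μ (fun k => ⋂ l, F l k) ≤ d1abs_c μ (E l) :=
      d1abs_c_mono fun k => (iInter_subset _ l).trans (hFE l k)
    linarith [hE3 l]
  have hD := d1abs_deriv hκ hp hGm hG
  have hcD : sInf V ≤ d1abs_c μ (d1abs_D q p κ (fun k => ⋂ l, F l k)) :=
    csInf_le hVb ⟨_, d1abs_D_meas hp hGm, hD, rfl⟩
  exact d1abs_c_eq (fun k => d1abs_D_sub _ k) (hcG.trans hcD)

end D1

theorem d1abs {Ω X : Type*} [MeasurableSpace Ω] [PseudoMetricSpace X] (μ : Measure Ω)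
    [IsProbabilityMeasure μ] (q : ℕ → X)
    (p : ℕ → Ω → ℝ) (hp : ∀ k, Measurable (p k))
    (κ δ : ℝ) (hκ : 0 < κ) (hδ : 0 < δ)
    (hS : ∀ ω, ∀ E : Set ℕ, E.Nonempty → ∃ k ∈ E, ∃ ρ > 0, ∀ k' ∈ E,
      dist (q k') (q k) < ρ → |p k' ω - p k ω| < κ)
    (hmac : ∀ k, ∀ ρ > 0, ∃ k' ≥ k, dist (q k') (q k) < ρ ∧
      δ ≤ μ.real {ω | 2 * κ ≤ |p k' ω - p k ω|}) : False := by
  obtain ⟨E, hE, hA, hD⟩ := d1abs_min (μ := μ) (q := q) hκ hp
  -- the random set is almost surely empty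
  have hnull : ∀ k, μ (E k \ d1abs_D q p κ E k) = 0 := by
    intro k
    have h1 : μ.real (E k \ d1abs_D q p κ E k) = μ.real (E k) - μ.real (d1abs_D q p κ E k) :=
      measureReal_sdiff (d1abs_D_sub E k) (d1abs_D_meas hp hE k)
    rw [hD k, sub_self] at h1
    exact (measureReal_eq_zero_iff (measure_ne_top μ _)).1 h1
  have hE0 : ∀ k, μ.real (E k) = 0 := by
    intro k
    rw [measureReal_eq_zero_iff (measure_ne_top μ _)]
    apply measure_mono_null (t := ⋃ k, (E k \ d1abs_D q p κ E k)) _ (measure_iUnion_null hnull)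
    intro ω hω
    by_contra hcon
    rw [mem_iUnion] at hcon
    push Not at hcon
    have hall : ∀ k, ω ∈ E k → ω ∈ d1abs_D q p κ E k := by
      intro k hk
      by_contra h
      exact hcon k ⟨hk, h⟩
    obtain ⟨k0, hk0, ρ, hρ, h⟩ := hS ω {k | ω ∈ E k} ⟨k, hω⟩
    obtain ⟨j, hj⟩ := exists_nat_one_div_lt hρ
    obtain ⟨k', hd, hk', hκ'⟩ := (hall k0 hk0).2 j
    have := h k' hk' (hd.trans hj)
    linarith
  obtain ⟨r, hr, hr'⟩ := hA (fun _ => δ / 2) (fun _ => half_pos hδ)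
  choose! nx hnx1 hnx2 hnx3 using hmac
  -- the play
  let st : ℕ → ℕ × ℝ := fun i => Nat.rec ((0, r 0 0) : ℕ × ℝ)
    (fun i s => (nx s.1 s.2, min (s.2 - dist (q (nx s.1 s.2)) (q s.1)) (r (i + 1) (nx s.1 s.2)))) i
  have st0 : st 0 = (0, r 0 0) := rfl
  have sts : ∀ i, st (i + 1) = (nx (st i).1 (st i).2,
      min ((st i).2 - dist (q (nx (st i).1 (st i).2)) (q (st i).1))
        (r (i + 1) (nx (st i).1 (st i).2))) := fun i => rfl
  have hpos : ∀ i, 0 < (st i).2 := by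
    intro i
    induction i with
    | zero => rw [st0]; exact hr 0 0
    | succ i ih =>
      rw [sts]
      exact lt_min (by linarith [hnx2 (st i).1 (st i).2 ih]) (hr _ _)
  have hmono : Monotone (fun i => (st i).1) := by
    apply monotone_nat_of_le_succ
    intro i
    rw [sts]
    exact hnx1 _ _ (hpos i)
  have hle : ∀ i, (st i).2 ≤ r i (st i).1 := by
    intro i
    cases i with
    | zero => rw [st0]
    | succ i => rw [sts]; exact min_le_right _ _
  have hnest : ∀ i t, dist (q (st (i + t)).1) (q (st i).1) + (st (i + t)).2 ≤ (st i).2 := by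
    intro i t
    induction t with
    | zero => simp
    | succ t ih =>
      rw [← add_assoc, sts]
      simp only
      have h1 := dist_triangle (q (nx (st (i + t)).1 (st (i + t)).2)) (q (st (i + t)).1)
        (q (st i).1)
      have h2 := min_le_left ((st (i + t)).2 - dist (q (nx (st (i + t)).1 (st (i + t)).2))
        (q (st (i + t)).1)) (r (i + t + 1) (nx (st (i + t)).1 (st (i + t)).2))
      linarith
  have hplay : d1abs_Play q r 0 (fun i => (st i).1) := by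
    refine ⟨hmono, fun i _ m hm => ?_⟩
    obtain ⟨t, rfl⟩ := Nat.exists_eq_add_of_le hm.le
    have h1 := hnest i t
    have h2 := hpos (i + t)
    have h3 := hle i
    simp only
    linarith
  have hmain := hr' 0 _ hplay
  -- lower bound of the measure
  set k : ℕ → ℕ := fun i => (st i).1 with hk
  have hinc : ∀ i, δ ≤ μ.real {ω | 2 * κ ≤ |p (k (i + 1)) ω - p (k i) ω|} := by
    intro i
    have e : k (i + 1) = nx (st i).1 (st i).2 := by
      rw [hk]
    rw [e]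
    exact hnx3 _ _ (hpos i)
  have hInf : d1abs_Inf p κ k = ⋂ N : ℕ, ⋃ i : ℕ, {ω | N ≤ i ∧
      2 * κ ≤ |p (k (i + 1)) ω - p (k i) ω|} := by
    ext ω
    simp only [d1abs_Inf, mem_ofPred_eq, mem_iInter, mem_iUnion]
  have hm1 : ∀ N : ℕ, MeasurableSet (⋃ i : ℕ, {ω | N ≤ i ∧
      2 * κ ≤ |p (k (i + 1)) ω - p (k i) ω|}) := by
    intro N
    refine MeasurableSet.iUnion fun i => ?_
    exact (MeasurableSet.const (N ≤ i)).inter (measurableSet_le measurable_const
      (((hp _).sub (hp _)).abs))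
  have hlow : ENNReal.ofReal δ ≤ μ (d1abs_Inf p κ k) := by
    rw [hInf]
    have ht := tendsto_measure_iInter_atTop (μ := μ) (fun N => (hm1 N).nullMeasurableSet)
      (by
        intro N N' h ω hω
        rw [mem_iUnion] at hω ⊢
        obtain ⟨i, hi, hi'⟩ := hω
        exact ⟨i, h.trans hi, hi'⟩) ⟨0, measure_ne_top μ _⟩
    apply ge_of_tendsto' ht
    intro N
    have h1 : {ω | 2 * κ ≤ |p (k (N + 1)) ω - p (k N) ω|} ⊆ ⋃ i : ℕ, {ω | N ≤ i ∧
      2 * κ ≤ |p (k (i + 1)) ω - p (k i) ω|} := by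
      intro ω hω
      exact mem_iUnion.2 ⟨N, le_rfl, hω⟩
    refine le_trans ?_ (measure_mono h1)
    rw [← ofReal_measureReal (measure_ne_top μ _)]
    exact ENNReal.ofReal_le_ofReal (hinc N)
  have hlow' : δ ≤ μ.real (d1abs_Inf p κ k) := by
    rw [← ofReal_measureReal (measure_ne_top μ _)] at hlow
    exact (ENNReal.ofReal_le_ofReal_iff measureReal_nonneg).1 hlow
  have hsub : d1abs_Inf p κ k ⊆ (d1abs_Inf p κ k ∩ (E (k 0))ᶜ) ∪ E (k 0) := by
    intro ω hω
    by_cases h : ω ∈ E (k 0)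
    · exact Or.inr h
    · exact Or.inl ⟨hω, h⟩
  have h3 : μ.real (d1abs_Inf p κ k) ≤ μ.real (d1abs_Inf p κ k ∩ (E (k 0))ᶜ) + μ.real (E (k 0)) :=
    (measureReal_mono hsub (measure_ne_top μ _)).trans (measureReal_union_le _ _)
  rw [hE0] at h3
  linarith

theorem d1_bd {K : Type*} [MeasurableSpace K] (μ : Measure K) [IsProbabilityMeasure μ]
    (G : K → ℝ) (hG : Measurable G) (hG1 : ∀ f, |G f| ≤ 1) (c : ℝ) (hc : 0 ≤ c) :
    ∫ f, |G f| ∂μ ≤ μ.real {f | c ≤ |G f|} + c := by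
  have hS : MeasurableSet {f | c ≤ |G f|} := measurableSet_le measurable_const
    (continuous_abs.measurable.comp hG)
  have h1 : Integrable (fun f => |G f|) μ := by
    refine Integrable.of_bound (continuous_abs.measurable.comp hG).aestronglyMeasurable 1 ?_
    exact Eventually.of_forall fun f => by simpa using hG1 f
  have h2 : Integrable (fun f => ({f | c ≤ |G f|}).indicator (fun _ => (1 : ℝ)) f + c) μ :=
    ((integrable_const _).indicator hS).add (integrable_const _)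
  calc ∫ f, |G f| ∂μ ≤ ∫ f, (({f | c ≤ |G f|}).indicator (fun _ => (1 : ℝ)) f + c) ∂μ := by
        refine integral_mono h1 h2 fun f => ?_
        by_cases hf : c ≤ |G f|
        · have : ({f | c ≤ |G f|}).indicator (fun _ => (1 : ℝ)) f = 1 := by
            rw [indicator_of_mem]; exact hf
          simp only [this]
          linarith [hG1 f]
        · have : ({f | c ≤ |G f|}).indicator (fun _ => (1 : ℝ)) f = 0 := by
            rw [indicator_of_notMem]; exact hf
          simp only [this]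
          linarith [not_le.mp hf]
    _ = μ.real {f | c ≤ |G f|} + c := by
        rw [integral_add ((integrable_const _).indicator hS) (integrable_const _),
          integral_indicator hS]
        simp

theorem d1 {X K : Type*} [PseudoMetricSpace X] [MeasurableSpace K] (μ : Measure K)
    [IsProbabilityMeasure μ] (F : X → K → ℝ) (hm : ∀ x, Measurable (F x))
    (hb : ∀ x f, F x f ∈ Icc (0 : ℝ) 1) (hF : Frag F)
    (Y : Set X) (hY : Y.Nonempty) (η : ℝ) (hη : 0 < η) :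
    ∃ W : Set X, IsOpen W ∧ (W ∩ Y).Nonempty ∧
      ∀ x ∈ W ∩ Y, ∀ y ∈ W ∩ Y, ∫ f, |F x f - F y f| ∂μ ≤ η := by
  by_contra hcon
  push Not at hcon
  have hb1 : ∀ x y f, |F x f - F y f| ≤ 1 := by
    intro x y f
    have a := hb x f
    have b := hb y f
    rw [abs_le]; constructor <;> linarith [a.1, a.2, b.1, b.2]
  have hmeas : ∀ x y, Measurable fun f => F x f - F y f := fun x y => (hm x).sub (hm y)
  have hint : ∀ x y, Integrable (fun f => |F x f - F y f|) μ := by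
    intro x y
    refine Integrable.of_bound
      (continuous_abs.measurable.comp (hmeas x y)).aestronglyMeasurable 1 ?_
    exact Eventually.of_forall fun f => by simpa using hb1 x y f
  have step : ∀ (z : Y) (j : ℕ), ∃ z' : Y, dist (z' : X) z < 1 / ((j : ℝ) + 1) ∧
      η / 4 ≤ μ.real {f | η / 4 ≤ |F z' f - F z f|} := by
    intro z j
    have hρ : (0 : ℝ) < 1 / ((j : ℝ) + 1) := by positivity
    obtain ⟨x, hx, y, hy, hxy⟩ := hcon (Metric.ball (z : X) (1 / ((j : ℝ) + 1)))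
      Metric.isOpen_ball ⟨z, Metric.mem_ball_self hρ, z.2⟩
    have key : ∀ w : X, w ∈ Metric.ball (z : X) (1 / ((j : ℝ) + 1)) ∩ Y →
        η / 2 < ∫ f, |F w f - F z f| ∂μ → ∃ z' : Y, dist (z' : X) z < 1 / ((j : ℝ) + 1) ∧
      η / 4 ≤ μ.real {f | η / 4 ≤ |F z' f - F z f|} := by
      intro w hw h
      refine ⟨⟨w, hw.2⟩, hw.1, ?_⟩
      have := d1_bd μ (fun f => F w f - F z f) (hmeas w z) (hb1 w z) (η / 4) (by positivity)
      have e : η / 4 ≤ μ.real {f | η / 4 ≤ |F w f - F z f|} := by linarith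
      exact e
    by_cases c1 : η / 2 < ∫ f, |F x f - F z f| ∂μ
    · exact key x hx c1
    by_cases c2 : η / 2 < ∫ f, |F y f - F z f| ∂μ
    · exact key y hy c2
    exfalso
    have h3 : ∫ f, |F x f - F y f| ∂μ ≤ ∫ f, (|F x f - F z f| + |F y f - F z f|) ∂μ := by
      refine integral_mono (hint x y) ((hint x z).add (hint y z)) fun f => ?_
      have e : F x f - F y f = (F x f - F z f) - (F y f - F z f) := by ring
      simp only
      rw [e]
      exact abs_sub _ _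
    rw [integral_add (hint x z) (hint y z)] at h3
    linarith
  choose nxt n1 n2 using step
  obtain ⟨y0, hy0⟩ := hY
  obtain ⟨g, hg⟩ : ∃ g : List ℕ → Y, ∀ j l, g (j :: l) = nxt (g l) j :=
    ⟨fun l => l.foldr (fun j z => nxt z j) ⟨y0, hy0⟩, fun j l => rfl⟩
  refine d1abs μ (fun k => ((g (Denumerable.ofNat (List ℕ) (Nat.unpair k).1) : Y) : X))
    (fun k => F (g (Denumerable.ofNat (List ℕ) (Nat.unpair k).1) : Y)) (fun k => hm _)
    (η / 8) (η / 4) (by positivity) (by positivity) ?_ ?_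
  · intro ω E hE
    obtain ⟨W, hW, ⟨x, hxW, k, hkE, rfl⟩, hW2⟩ := hF ω (η / 8) (by positivity)
      ((fun k => ((g (Denumerable.ofNat (List ℕ) (Nat.unpair k).1) : Y) : X)) '' E)
      (hE.image _)
    obtain ⟨ρ, hρ, hball⟩ := Metric.isOpen_iff.mp hW _ hxW
    refine ⟨k, hkE, ρ, hρ, fun k' hk' hd => ?_⟩
    exact hW2 _ ⟨hball (Metric.mem_ball.mpr hd), mem_image_of_mem _ hk'⟩ _
      ⟨hxW, mem_image_of_mem _ hkE⟩
  · intro k ρ hρ
    obtain ⟨j, hj⟩ := exists_nat_one_div_lt hρ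
    refine ⟨Nat.pair (Encodable.encode (j :: (Denumerable.ofNat (List ℕ) (Nat.unpair k).1))) k,
      Nat.right_le_pair _ _, ?_, ?_⟩
    · simp only [Nat.unpair_pair, Denumerable.ofNat_encode, hg]
      exact (n1 _ j).trans hj
    · simp only [Nat.unpair_pair, Denumerable.ofNat_encode, hg]
      have e : 2 * (η / 8) = η / 4 := by ring
      rw [e]
      exact n2 _ j

end Pool.Agent.Helper249.RC
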