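import Pool.Agent.Helper249.RC.Defs

/-!
Auxiliary definitions for the proof that measures on compact spaces of functions of the first
Baire class have metrizable-like support.
-/

set_option autoImplicit false
open MeasureTheory Set Filter Topology

namespace Pool.Agent.Helper249.RC

/-- fragmentedness of every `F · f` -/
def Frag {X K : Type*} [TopologicalSpace X] (F : X → K → ℝ) : Prop :=
  ∀ f : K, ∀ κ : ℝ, 0 < κ → ∀ E : Set X, E.Nonempty →
    ∃ W : Set X, IsOpen W ∧ (W ∩ E).Nonempty ∧
      ∀ x ∈ W ∩ E, ∀ y ∈ W ∩ E, |F x f - F y f| < κ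

/-- pointwise supremum over `W` -/
noncomputable def sW {Z K : Type*} (F : Z → K → ℝ) (W : Set Z) (f : K) : ℝ := ⨆ x : W, F x f

/-- thin sets -/
def Thin {X K : Type*} [MeasurableSpace K] (F : X → K → ℝ) (μ : Measure K) (η : ℝ) (V : Set X) :
    Prop :=
  μ.real {f | ∃ x ∈ V, ∃ y ∈ V, η < |F x f - F y f|} ≤ η

/-- nodes of level `n` of the binary tree -/
def Idx : ℕ → Type
  | 0 => Unit
  | n + 1 => Idx n × Bool

instance instFintypeIdx : ∀ n, Fintype (Idx n)
  | 0 => (inferInstance : Fintype Unit)
  | n + 1 => by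
      haveI := instFintypeIdx n
      exact (inferInstance : Fintype (Idx n × Bool))

/-- the initial segment of length `n` of a branch -/
def res (b : ℕ → Bool) : ∀ n, Idx n
  | 0 => ()
  | n + 1 => (res b n, b n)

end Pool.Agent.Helper249.RC
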