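import Pool.Agent.Helper249.RC.Base

set_option autoImplicit false
open MeasureTheory Set Filter Topology

namespace Pool.Agent.Helper249.RC

theorem card_Idx : ∀ n, Fintype.card (Idx n) = 2 ^ n
  | 0 => rfl
  | n + 1 => by
      have h : Fintype.card (Idx (n + 1)) = Fintype.card (Idx n × Bool) := rfl
      rw [h, Fintype.card_prod, card_Idx n, Fintype.card_bool, pow_succ]

section
variable {Z K : Type*} {F : Z → K → ℝ}

theorem bdd_sW (hb : ∀ z f, F z f ∈ Icc (0 : ℝ) 1) (W : Set Z) (f : K) :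
    BddAbove (range fun x : W => F x f) := ⟨1, by rintro _ ⟨x, rfl⟩; exact (hb _ _).2⟩

theorem le_sW (hb : ∀ z f, F z f ∈ Icc (0 : ℝ) 1) {W : Set Z} {z : Z} (hz : z ∈ W) (f : K) :
    F z f ≤ sW F W f := le_ciSup (bdd_sW hb W f) ⟨z, hz⟩

theorem sW_le_one (hb : ∀ z f, F z f ∈ Icc (0 : ℝ) 1) {W : Set Z} (hW : W.Nonempty) (f : K) :
    sW F W f ≤ 1 := by
  have : Nonempty W := hW.to_subtype
  exact ciSup_le fun x => (hb _ _).2

theorem sW_nonneg (hb : ∀ z f, F z f ∈ Icc (0 : ℝ) 1) {W : Set Z} (hW : W.Nonempty) (f : K) :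
    0 ≤ sW F W f := by
  obtain ⟨z, hz⟩ := hW
  exact (hb z f).1.trans (le_sW hb hz f)

theorem sW_mono (hb : ∀ z f, F z f ∈ Icc (0 : ℝ) 1) {W W' : Set Z} (hW : W.Nonempty)
    (h : W ⊆ W') (f : K) : sW F W f ≤ sW F W' f := by
  have : Nonempty W := hW.to_subtype
  exact ciSup_le fun x => le_sW hb (h x.2) f

theorem meas_sW [TopologicalSpace K] [MeasurableSpace K] [BorelSpace K]
    (hc : ∀ z, Continuous (F z)) (hb : ∀ z f, F z f ∈ Icc (0 : ℝ) 1) (W : Set Z) :
    Measurable (sW F W) := by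
  apply LowerSemicontinuous.measurable
  exact lowerSemicontinuous_ciSup (fun f => bdd_sW hb W f) (fun x => (hc x).lowerSemicontinuous)

theorem markov [MeasurableSpace K] (μ : Measure K) [IsProbabilityMeasure μ] {g : K → ℝ}
    (hg : Measurable g) (h0 : ∀ f, 0 ≤ g f) (h1 : ∀ f, g f ≤ 1) {e t : ℝ} (he : ∫ f, g f ∂μ ≤ e)
    (ht : 0 < t) : μ.real {f | t ≤ g f} ≤ e / t := by
  have hi : Integrable g μ := Integrable.of_bound hg.aestronglyMeasurable 1
    (Eventually.of_forall fun f => by rw [Real.norm_eq_abs, abs_of_nonneg (h0 f)]; exact h1 f)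
  have := mul_meas_ge_le_integral_of_nonneg (Eventually.of_forall h0) hi t
  rw [le_div_iff₀ ht]; linarith

/-- if the mean of a `[0,1]`-valued function is at least `2t` then it exceeds `t` with measure
at least `t`. -/
theorem anti_markov [MeasurableSpace K] (μ : Measure K) [IsProbabilityMeasure μ] {g : K → ℝ}
    (hg : Measurable g) (h0 : ∀ f, 0 ≤ g f) (h1 : ∀ f, g f ≤ 1) {t : ℝ} (ht : 0 ≤ t)
    (he : 2 * t ≤ ∫ f, g f ∂μ) :
    t ≤ μ.real {f | t < g f} := by
  have hi : Integrable g μ := Integrable.of_bound hg.aestronglyMeasurable 1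
    (Eventually.of_forall fun f => by rw [Real.norm_eq_abs, abs_of_nonneg (h0 f)]; exact h1 f)
  have hms : MeasurableSet {f | t < g f} := measurableSet_lt measurable_const hg
  have h2 : ∫ f, g f ∂μ ≤ ∫ f, (indicator {f | t < g f} (fun _ => (1 : ℝ)) f + t) ∂μ := by
    apply integral_mono hi
    · exact ((integrable_const (1 : ℝ)).indicator hms).add (integrable_const _)
    · intro f
      show g f ≤ indicator {f | t < g f} (fun _ => (1 : ℝ)) f + t
      by_cases h : t < g f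
      · have hh : f ∈ {f | t < g f} := h
        rw [indicator_of_mem hh]
        linarith [h1 f]
      · have hh : f ∉ {f | t < g f} := h
        rw [indicator_of_notMem hh]
        push Not at h
        linarith
  rw [integral_add ((integrable_const (1 : ℝ)).indicator hms) (integrable_const _),
    integral_indicator_const _ hms] at h2
  simp at h2
  linarith

end

theorem select {Z K ι : Type*} [TopologicalSpace K] [CompactSpace K] [T2Space K]
    [MeasurableSpace K] [BorelSpace K] [Fintype ι] (μ : Measure K) [IsProbabilityMeasure μ]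
    [μ.Regular] (F : Z → K → ℝ) (hc : ∀ z, Continuous (F z))
    (G : Set K) (hG : MeasurableSet G) (hG0 : 0 < μ.real G) (V : ι → Set Z) (y : ι → Z) (t : ℝ)
    (h : ∀ f ∈ G, ∀ i, ∃ z ∈ V i, F (y i) f + t < F z f) :
    ∃ z : ι → Z, (∀ i, z i ∈ V i) ∧ 0 < μ.real (G ∩ {f | ∀ i, F (y i) f + t < F (z i) f}) := by
  by_contra hcon
  push Not at hcon
  have hzero : ∀ z : ι → Z, (∀ i, z i ∈ V i) → μ (G ∩ {f | ∀ i, F (y i) f + t < F (z i) f}) = 0 := by
    intro z hz
    have h1 := hcon z hz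
    have h2 : μ.real (G ∩ {f | ∀ i, F (y i) f + t < F (z i) f}) = 0 := le_antisymm h1 measureReal_nonneg
    exact (measureReal_eq_zero_iff (measure_ne_top _ _)).1 h2
  have hGpos : 0 < μ G := by
    by_contra h0
    have h1 : μ G = 0 := le_antisymm (not_lt.1 h0) (zero_le)
    rw [measureReal_def, h1, ENNReal.toReal_zero] at hG0
    exact lt_irrefl _ hG0
  obtain ⟨C, hCG, hC, hC0⟩ := hG.exists_lt_isCompact_of_ne_top (measure_ne_top μ G) hGpos
  have hopen : ∀ z : {z : ι → Z // ∀ i, z i ∈ V i}, IsOpen {f | ∀ i, F (y i) f + t < F (z.1 i) f} := by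
    intro z
    rw [setOf_forall]
    exact isOpen_iInter_of_finite fun i => isOpen_lt ((hc _).add continuous_const) (hc _)
  have hcov : C ⊆ ⋃ z : {z : ι → Z // ∀ i, z i ∈ V i}, {f | ∀ i, F (y i) f + t < F (z.1 i) f} := by
    intro f hf
    choose z hz1 hz2 using h f (hCG hf)
    exact mem_iUnion.2 ⟨⟨z, hz1⟩, hz2⟩
  obtain ⟨s, hs⟩ := hC.elim_finite_subcover _ hopen hcov
  have h1 : μ C ≤ ∑ z ∈ s, μ (G ∩ {f | ∀ i, F (y i) f + t < F (z.1 i) f}) := by
    refine le_trans (measure_mono ?_) (measure_biUnion_finset_le s _)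
    intro f hf
    obtain ⟨z, hz, hfz⟩ := mem_iUnion₂.1 (hs hf)
    exact mem_iUnion₂.2 ⟨z, hz, hCG hf, hfz⟩
  rw [Finset.sum_eq_zero (fun z _ => hzero z.1 z.2)] at h1
  exact absurd hC0 (not_lt.2 h1)

theorem precision_bdd {Z K : Type*} (F : Z → K → ℝ) (hb : ∀ z f, F z f ∈ Icc (0 : ℝ) 1)
    (W : Set Z) (f : K) : BddAbove (range fun x : W => F x f) := by
  refine ⟨1, ?_⟩
  rintro _ ⟨x, rfl⟩
  exact (hb x f).2

theorem precision_mono {Z K : Type*} (F : Z → K → ℝ) (hb : ∀ z f, F z f ∈ Icc (0 : ℝ) 1)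
    {W W' : Set Z} (h : W' ⊆ W) (hne : W'.Nonempty) (f : K) : sW F W' f ≤ sW F W f := by
  have : Nonempty W' := hne.to_subtype
  unfold sW
  exact ciSup_le fun x => le_ciSup (precision_bdd F hb W f) ⟨x.1, h x.2⟩

theorem precision_mem {Z K : Type*} (F : Z → K → ℝ) (hb : ∀ z f, F z f ∈ Icc (0 : ℝ) 1)
    {W : Set Z} (hne : W.Nonempty) (f : K) : sW F W f ∈ Icc (0 : ℝ) 1 := by
  have : Nonempty W := hne.to_subtype
  obtain ⟨x, hx⟩ := hne
  unfold sW
  exact ⟨(hb x f).1.trans (le_ciSup (precision_bdd F hb W f) ⟨x, hx⟩),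
    ciSup_le fun x => (hb x f).2⟩

theorem precision_int {Z K : Type*} [TopologicalSpace K]
    [MeasurableSpace K] [BorelSpace K] (μ : Measure K) [IsProbabilityMeasure μ]
    (F : Z → K → ℝ) (hc : ∀ z, Continuous (F z)) (hb : ∀ z f, F z f ∈ Icc (0 : ℝ) 1)
    {W : Set Z} (hne : W.Nonempty) : Integrable (sW F W) μ := by
  have h1 : LowerSemicontinuous (sW F W) := by
    unfold sW
    exact lowerSemicontinuous_ciSup (precision_bdd F hb W) fun x => (hc x).lowerSemicontinuous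
  refine Integrable.of_bound h1.measurable.aestronglyMeasurable 1
    (Filter.Eventually.of_forall fun f => ?_)
  have h2 := precision_mem F hb hne f
  rw [Real.norm_eq_abs, abs_of_nonneg h2.1]
  exact h2.2

theorem precision_intF {Z K : Type*} [TopologicalSpace K]
    [MeasurableSpace K] [BorelSpace K] (μ : Measure K) [IsProbabilityMeasure μ]
    (F : Z → K → ℝ) (hc : ∀ z, Continuous (F z)) (hb : ∀ z f, F z f ∈ Icc (0 : ℝ) 1)
    (z : Z) : Integrable (F z) μ := by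
  refine Integrable.of_bound (hc z).measurable.aestronglyMeasurable 1
    (Filter.Eventually.of_forall fun f => ?_)
  have h2 := hb z f
  rw [Real.norm_eq_abs, abs_of_nonneg h2.1]
  exact h2.2

theorem precision {Z K : Type*} [MetricSpace Z] [TopologicalSpace K] [CompactSpace K] [T2Space K]
    [MeasurableSpace K] [BorelSpace K] (μ : Measure K) [IsProbabilityMeasure μ]
    (F : Z → K → ℝ) (hc : ∀ z, Continuous (F z)) (hb : ∀ z f, F z f ∈ Icc (0 : ℝ) 1)
    (hΦ : ∀ z, ∀ e > 0, ∃ ρ > 0, ∀ z', dist z' z < ρ → ∫ f, |F z' f - F z f| ∂μ ≤ e)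
    (W : Set Z) (hW : IsOpen W) (hne : W.Nonempty) (e : ℝ) (he : 0 < e) :
    ∃ V, IsOpen V ∧ V.Nonempty ∧ closure V ⊆ W ∧ (∀ x ∈ V, ∀ y ∈ V, dist x y ≤ e) ∧
      (∀ x ∈ V, ∀ y ∈ V, ∫ f, |F x f - F y f| ∂μ ≤ e) ∧
      ∀ W' ⊆ V, IsOpen W' → W'.Nonempty → ∫ f, (sW F V f - sW F W' f) ∂μ ≤ e := by
  obtain ⟨A, hA⟩ : ∃ A : Set ℝ, A = {t | ∃ W', W' ⊆ W ∧ IsOpen W' ∧ W'.Nonempty ∧
      t = ∫ f, sW F W' f ∂μ} := ⟨_, rfl⟩
  have hAne : A.Nonempty := by
    rw [hA]
    exact ⟨_, W, subset_rfl, hW, hne, rfl⟩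
  have hAbdd : BddBelow A := by
    refine ⟨0, ?_⟩
    rw [hA]
    rintro t ⟨W', -, -, h3, rfl⟩
    exact integral_nonneg fun f => (precision_mem F hb h3 f).1
  obtain ⟨t, htA, ht⟩ := exists_lt_of_csInf_lt hAne (show sInf A < sInf A + e by linarith)
  have hle : ∀ W', W' ⊆ W → IsOpen W' → W'.Nonempty → sInf A ≤ ∫ f, sW F W' f ∂μ := by
    intro W' h1 h2 h3
    apply csInf_le hAbdd
    rw [hA]
    exact ⟨W', h1, h2, h3, rfl⟩
  rw [hA] at htA
  obtain ⟨W1, hW1, hW1o, ⟨z, hz⟩, rfl⟩ := htA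
  obtain ⟨ρ1, hρ1, hball⟩ := Metric.isOpen_iff.1 hW1o z hz
  obtain ⟨ρ2, hρ2, hρΦ⟩ := hΦ z (e / 2) (by linarith)
  obtain ⟨ρ, hρ, h1, h2, h3⟩ : ∃ ρ > 0, ρ < ρ1 ∧ ρ ≤ ρ2 ∧ 2 * ρ ≤ e := by
    refine ⟨min (min (ρ1 / 2) ρ2) (e / 2), lt_min (lt_min (by linarith) hρ2) (by linarith),
      ?_, ?_, ?_⟩
    · exact lt_of_le_of_lt ((min_le_left _ _).trans (min_le_left _ _)) (by linarith)
    · exact (min_le_left _ _).trans (min_le_right _ _)
    · have := min_le_right (min (ρ1 / 2) ρ2) (e / 2)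
      linarith
  have hVW1 : Metric.ball z ρ ⊆ W1 := (Metric.ball_subset_ball h1.le).trans hball
  have hVne : (Metric.ball z ρ).Nonempty := ⟨z, Metric.mem_ball_self hρ⟩
  refine ⟨Metric.ball z ρ, Metric.isOpen_ball, hVne, ?_, ?_, ?_, ?_⟩
  · exact Metric.closure_ball_subset_closedBall.trans
      ((Metric.closedBall_subset_ball h1).trans (hball.trans hW1))
  · intro x hx y hy
    rw [Metric.mem_ball] at hx hy
    have := dist_triangle_right x y z
    linarith
  · intro x hx y hy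
    rw [Metric.mem_ball] at hx hy
    have i1 : Integrable (fun f => |F x f - F z f|) μ :=
      ((precision_intF μ F hc hb x).sub (precision_intF μ F hc hb z)).abs
    have i2 : Integrable (fun f => |F y f - F z f|) μ :=
      ((precision_intF μ F hc hb y).sub (precision_intF μ F hc hb z)).abs
    have i3 : Integrable (fun f => |F x f - F y f|) μ :=
      ((precision_intF μ F hc hb x).sub (precision_intF μ F hc hb y)).abs
    have k1 := hρΦ x (lt_of_lt_of_le hx h2)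
    have k2 := hρΦ y (lt_of_lt_of_le hy h2)
    have k3 : ∫ f, |F x f - F y f| ∂μ ≤ ∫ f, (|F x f - F z f| + |F y f - F z f|) ∂μ := by
      refine integral_mono i3 (i1.add i2) fun f => ?_
      show |F x f - F y f| ≤ |F x f - F z f| + |F y f - F z f|
      rw [abs_sub_comm (F y f)]
      exact abs_sub_le _ _ _
    rw [integral_add i1 i2] at k3
    linarith
  · intro W' hW'V hW'o hW'ne
    rw [integral_sub (precision_int μ F hc hb hVne) (precision_int μ F hc hb hW'ne)]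
    have k1 := hle W' (hW'V.trans (hVW1.trans hW1)) hW'o hW'ne
    have k2 : ∫ f, sW F (Metric.ball z ρ) f ∂μ ≤ ∫ f, sW F W1 f ∂μ :=
      integral_mono (precision_int μ F hc hb hVne) (precision_int μ F hc hb ⟨z, hz⟩)
        fun f => precision_mono F hb hVW1 hVne f
    linarith

/-- the good set of a stage -/
def GG {Z K : Type*} (F : Z → K → ℝ) (c : ℝ) (y0 : Z) (n : ℕ) {ι : Type*} (V : ι → Set Z)
    (y : ι → Z) : Set K :=
  {f | ∀ i, (7 + (1 / 2 : ℝ) ^ n) * c < sW F (V i) f - F (y i) f ∧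
    |F (y i) f - F y0 f| ≤ (1 - (1 / 2 : ℝ) ^ n) * c}

structure Stage {Z K : Type*} [MetricSpace Z] [MeasurableSpace K] (μ : Measure K)
    (F : Z → K → ℝ) (c : ℝ) (V0 : Set Z) (y0 : Z) (n : ℕ) where
  V : Idx n → Set Z
  y : Idx n → Z
  e : ℝ
  hopen : ∀ i, IsOpen (V i)
  hy : ∀ i, y i ∈ V i
  hV0 : ∀ i, V i ⊆ V0
  hdist : ∀ i, ∀ x ∈ V i, ∀ x' ∈ V i, dist x x' ≤ (1 / 2 : ℝ) ^ n
  he : 0 < e
  hΦ : ∀ i, ∀ x ∈ V i, ∀ x' ∈ V i, ∫ f, |F x f - F x' f| ∂μ ≤ e
  hsup : ∀ i, ∀ W' ⊆ V i, IsOpen W' → W'.Nonempty → ∫ f, (sW F (V i) f - sW F W' f) ∂μ ≤ e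
  hec : e ≤ c ^ 2 / 8 ^ (n + 1)
  hG : 4 * c + 4 * c * (1 / 2 : ℝ) ^ n ≤ μ.real (GG F c y0 n V y)

theorem meas_GG {Z K ι : Type*} [TopologicalSpace K] [MeasurableSpace K] [BorelSpace K]
    [Countable ι] {F : Z → K → ℝ} (hc : ∀ z, Continuous (F z))
    (hb : ∀ z f, F z f ∈ Icc (0 : ℝ) 1) (c : ℝ) (y0 : Z) (n : ℕ) (V : ι → Set Z) (y : ι → Z) :
    MeasurableSet (GG F c y0 n V y) := by
  have : GG F c y0 n V y = ⋂ i, ({f | (7 + (1 / 2 : ℝ) ^ n) * c < sW F (V i) f - F (y i) f} ∩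
    {f | |F (y i) f - F y0 f| ≤ (1 - (1 / 2 : ℝ) ^ n) * c}) := by
    ext f; simp [GG]
  rw [this]
  refine MeasurableSet.iInter fun i => ?_
  refine MeasurableSet.inter ?_ ?_
  · exact measurableSet_lt measurable_const ((meas_sW hc hb _).sub (hc _).measurable)
  · exact measurableSet_le (((hc _).sub (hc _)).abs.measurable) measurable_const

theorem stage_step {Z K : Type*} [MetricSpace Z] [TopologicalSpace K] [CompactSpace K] [T2Space K]
    [MeasurableSpace K] [BorelSpace K] (μ : Measure K) [IsProbabilityMeasure μ] [μ.Regular]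
    (F : Z → K → ℝ) (hc : ∀ z, Continuous (F z)) (hb : ∀ z f, F z f ∈ Icc (0 : ℝ) 1)
    (hΦ : ∀ z, ∀ e > 0, ∃ ρ > 0, ∀ z', dist z' z < ρ → ∫ f, |F z' f - F z f| ∂μ ≤ e)
    (V0 : Set Z) (c : ℝ) (hc0 : 0 < c) (y0 : Z) (n : ℕ) (S : Stage μ F c V0 y0 n) :
    ∃ (S' : Stage μ F c V0 y0 (n + 1)) (D : Set K), MeasurableSet D ∧
      (∀ i ε, closure (S'.V (i, ε)) ⊆ S.V i) ∧
      ((n : ℝ) + 1) * S'.e < c * μ.real D ∧
      ∀ f ∈ D, ∀ i : Idx n, F (S.y i) f + 6 * c ≤ F (S'.y (i, true)) f ∧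
        F (S'.y (i, false)) f ≤ F (S.y i) f + c ∧ |F (S.y i) f - F y0 f| ≤ c := by
  classical
  have hmc : ∀ z, Measurable (F z) := fun z => (hc z).measurable
  have hp : (0 : ℝ) < (1 / 2 : ℝ) ^ n := by positivity
  have hp1 : (1 / 2 : ℝ) ^ n ≤ 1 := pow_le_one₀ (by norm_num) (by norm_num)
  set G := GG F c y0 n S.V S.y with hGdef
  have hGm : MeasurableSet G := meas_GG hc hb c y0 n S.V S.y
  have hG0 : 0 < μ.real G := lt_of_lt_of_le (by positivity) S.hG
  -- selection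
  obtain ⟨z, hz, hd⟩ := select μ F hc G hGm hG0 S.V S.y (7 * c) (by
    intro f hf i
    have h1 := (hf i).1
    have h2 : F (S.y i) f + 7 * c < sW F (S.V i) f := by nlinarith
    have : Nonempty (S.V i) := ⟨⟨_, S.hy i⟩⟩
    obtain ⟨x, hx⟩ := exists_lt_of_lt_ciSup h2
    exact ⟨x, x.2, hx⟩)
  set d := μ.real (G ∩ {f | ∀ i, F (S.y i) f + 7 * c < F (z i) f}) with hddef
  set N : ℝ := 2 ^ n with hN
  have hN0 : 0 < N := by positivity
  -- radii
  have hr : ∀ x : Z, ∃ ρ > 0, ∀ z', dist z' x < ρ →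
      ∫ f, |F z' f - F x f| ∂μ ≤ c * (d / (4 * N)) := fun x => hΦ x _ (by positivity)
  choose ρ hρ0 hρ using hr
  -- new precision
  obtain ⟨e', he'0, he'1, he'2, he'3⟩ : ∃ e' : ℝ, 0 < e' ∧ e' ≤ c ^ 2 / 8 ^ (n + 1 + 1) ∧
      e' ≤ (1 / 2 : ℝ) ^ (n + 1) ∧ ((n : ℝ) + 1) * e' ≤ c * (d / 4) := by
    refine ⟨min (c ^ 2 / 8 ^ (n + 1 + 1)) (min ((1 / 2 : ℝ) ^ (n + 1)) (c * (d / 4) / ((n : ℝ) + 1))),
      by positivity, min_le_left _ _, (min_le_right _ _).trans (min_le_left _ _), ?_⟩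
    have h := (min_le_right (c ^ 2 / 8 ^ (n + 1 + 1))
      (min ((1 / 2 : ℝ) ^ (n + 1)) (c * (d / 4) / ((n : ℝ) + 1)))).trans (min_le_right _ _)
    have h3 : (0 : ℝ) < (n : ℝ) + 1 := by positivity
    calc ((n : ℝ) + 1) * _ ≤ ((n : ℝ) + 1) * (c * (d / 4) / ((n : ℝ) + 1)) :=
          mul_le_mul_of_nonneg_left h h3.le
      _ = c * (d / 4) := by field_simp
  -- new sets
  let x0 : Idx n × Bool → Z := fun p => if p.2 then z p.1 else S.y p.1
  have hx0 : ∀ p : Idx n × Bool, x0 p ∈ S.V p.1 := by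
    rintro ⟨i, ε⟩; cases ε
    · simpa [x0] using S.hy i
    · simpa [x0] using hz i
  have hnew : ∀ p : Idx n × Bool, ∃ V, IsOpen V ∧ V.Nonempty ∧
      closure V ⊆ S.V p.1 ∩ Metric.ball (x0 p) (ρ (x0 p)) ∧ (∀ x ∈ V, ∀ y ∈ V, dist x y ≤ e') ∧
      (∀ x ∈ V, ∀ y ∈ V, ∫ f, |F x f - F y f| ∂μ ≤ e') ∧
      ∀ W' ⊆ V, IsOpen W' → W'.Nonempty → ∫ f, (sW F V f - sW F W' f) ∂μ ≤ e' := fun p =>
    precision μ F hc hb hΦ _ ((S.hopen p.1).inter Metric.isOpen_ball)
      ⟨x0 p, hx0 p, Metric.mem_ball_self (hρ0 _)⟩ e' he'0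
  choose V' hV'o hV'n hV'c hV'd hV'Φ hV's using hnew
  choose y' hy' using hV'n
  have hV'sub : ∀ p, V' p ⊆ S.V p.1 := fun p => (subset_closure.trans (hV'c p)).trans inter_subset_left
  have hy'ball : ∀ p, dist (y' p) (x0 p) < ρ (x0 p) := fun p =>
    ((subset_closure.trans (hV'c p)) (hy' p)).2
  -- the measure of the good set at the next stage
  have key1 : ∀ p : Idx n × Bool, μ.real {f | (1 / 2 : ℝ) ^ (n + 2) * c ≤
      sW F (S.V p.1) f - sW F (V' p) f} ≤ S.e / ((1 / 2 : ℝ) ^ (n + 2) * c) := by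
    intro p
    apply markov μ ((meas_sW hc hb _).sub (meas_sW hc hb _))
    · intro f; exact sub_nonneg.2 (sW_mono hb ⟨_, hy' p⟩ (hV'sub p) f)
    · intro f
      have h1 := sW_le_one hb (W := S.V p.1) ⟨_, S.hy p.1⟩ f
      have h2 := sW_nonneg hb (W := V' p) ⟨_, hy' p⟩ f
      show sW F (S.V p.1) f - sW F (V' p) f ≤ 1
      linarith
    · exact S.hsup p.1 _ (hV'sub p) (hV'o p) ⟨_, hy' p⟩
    · positivity
  have habs : ∀ x y : Z, ∀ f, |F x f - F y f| ≤ 1 := by
    intro x y f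
    rw [abs_le]; constructor <;> linarith [(hb x f).1, (hb x f).2, (hb y f).1, (hb y f).2]
  have key2 : ∀ p : Idx n × Bool, μ.real {f | (1 / 2 : ℝ) ^ (n + 2) * c ≤
      |F (y' p) f - F (S.y p.1) f|} ≤ S.e / ((1 / 2 : ℝ) ^ (n + 2) * c) := by
    intro p
    apply markov μ ((hc _).sub (hc _)).abs.measurable
    · intro f; exact abs_nonneg _
    · intro f; exact habs _ _ f
    · exact S.hΦ p.1 _ (hV'sub p (hy' p)) _ (S.hy p.1)
    · positivity
  have key3 : μ.real (G \ GG F c y0 (n + 1) V' y') ≤ 2 * c * (1 / 2 : ℝ) ^ n := by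
    have hsub : G \ GG F c y0 (n + 1) V' y' ⊆ ⋃ p : Idx n × Bool,
        ({f | (1 / 2 : ℝ) ^ (n + 2) * c ≤ sW F (S.V p.1) f - sW F (V' p) f} ∪
        {f | (1 / 2 : ℝ) ^ (n + 2) * c ≤ |F (y' p) f - F (S.y p.1) f|}) := by
      rintro f ⟨hf, hf'⟩
      by_contra hcon
      apply hf'
      intro p
      have h1 : ¬ (f ∈ ({f | (1 / 2 : ℝ) ^ (n + 2) * c ≤ sW F (S.V p.1) f - sW F (V' p) f} ∪
        {f | (1 / 2 : ℝ) ^ (n + 2) * c ≤ |F (y' p) f - F (S.y p.1) f|})) := fun h =>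
          hcon (mem_iUnion.2 ⟨p, h⟩)
      rw [mem_union, not_or] at h1
      simp only [mem_ofPred_eq, not_le] at h1
      obtain ⟨h1, h2⟩ := h1
      obtain ⟨h3, h4⟩ := hf p.1
      have e1 : (1 / 2 : ℝ) ^ (n + 1) = (1 / 2 : ℝ) ^ n / 2 := by rw [pow_succ]; ring
      have e2 : (1 / 2 : ℝ) ^ (n + 2) = (1 / 2 : ℝ) ^ n / 4 := by rw [pow_add]; norm_num; ring
      rw [e2] at h1 h2
      rw [abs_lt] at h2
      rw [abs_le] at h4
      refine ⟨?_, ?_⟩
      · rw [e1]; nlinarith [h2.1, h2.2]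
      · rw [e1, abs_le]; constructor <;> nlinarith [h2.1, h2.2, h4.1, h4.2]
    calc μ.real (G \ GG F c y0 (n + 1) V' y') ≤ μ.real (⋃ p : Idx n × Bool,
        ({f | (1 / 2 : ℝ) ^ (n + 2) * c ≤ sW F (S.V p.1) f - sW F (V' p) f} ∪
        {f | (1 / 2 : ℝ) ^ (n + 2) * c ≤ |F (y' p) f - F (S.y p.1) f|})) := measureReal_mono hsub
      _ ≤ ∑ p : Idx n × Bool, μ.real ({f | (1 / 2 : ℝ) ^ (n + 2) * c ≤ sW F (S.V p.1) f - sW F (V' p) f} ∪
        {f | (1 / 2 : ℝ) ^ (n + 2) * c ≤ |F (y' p) f - F (S.y p.1) f|}) :=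
          measureReal_iUnion_fintype_le _
      _ ≤ ∑ p : Idx n × Bool, (2 * (S.e / ((1 / 2 : ℝ) ^ (n + 2) * c))) := by
          apply Finset.sum_le_sum
          intro p _
          calc _ ≤ _ := measureReal_union_le _ _
            _ ≤ 2 * (S.e / ((1 / 2 : ℝ) ^ (n + 2) * c)) := by linarith [key1 p, key2 p]
      _ = (N * 2) * (2 * (S.e / ((1 / 2 : ℝ) ^ (n + 2) * c))) := by
          rw [Finset.sum_const, Finset.card_univ, Fintype.card_prod, card_Idx, Fintype.card_bool,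
            nsmul_eq_mul]
          push_cast; rfl
      _ ≤ 2 * c * (1 / 2 : ℝ) ^ n := by
          have h8 : (8 : ℝ) ^ (n + 1) = 8 * (N * N * N) := by
            rw [hN, pow_succ]
            have : (8 : ℝ) ^ n = (2 ^ n) * (2 ^ n) * (2 ^ n) := by
              rw [← mul_pow, ← mul_pow]; norm_num
            rw [this]; ring
          have hhalf : (1 / 2 : ℝ) ^ n = 1 / N := by rw [hN, one_div_pow]
          have e2 : (1 / 2 : ℝ) ^ (n + 2) = 1 / (4 * N) := by
            rw [pow_add, hhalf]; field_simp; norm_num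
          have hec := S.hec
          rw [h8] at hec
          rw [e2, hhalf]
          have : N * 2 * (2 * (S.e / (1 / (4 * N) * c))) = 16 * (N * N) * S.e / c := by
            field_simp; ring
          rw [this]
          calc 16 * (N * N) * S.e / c ≤ 16 * (N * N) * (c ^ 2 / (8 * (N * N * N))) / c := by
                gcongr
            _ = 2 * c * (1 / N) := by field_simp; norm_num
  -- D
  let D : Set K := (G ∩ {f | ∀ i, F (S.y i) f + 7 * c < F (z i) f}) \
    ⋃ p : Idx n × Bool, {f | c ≤ |F (y' p) f - F (x0 p) f|}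
  have hDm : MeasurableSet D := by
    apply MeasurableSet.diff
    · apply hGm.inter
      have : {f | ∀ i, F (S.y i) f + 7 * c < F (z i) f} =
        ⋂ i, {f | F (S.y i) f + 7 * c < F (z i) f} := by ext; simp
      rw [this]
      exact MeasurableSet.iInter fun i =>
        measurableSet_lt (((hc _).add continuous_const).measurable) (hmc _)
    · exact MeasurableSet.iUnion fun p => measurableSet_le measurable_const
        (((hc _).sub (hc _)).abs.measurable)
  have hDd : d / 2 ≤ μ.real D := by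
    have hu : μ.real (⋃ p : Idx n × Bool, {f | c ≤ |F (y' p) f - F (x0 p) f|}) ≤ d / 2 := by
      calc μ.real (⋃ p : Idx n × Bool, {f | c ≤ |F (y' p) f - F (x0 p) f|})
          ≤ ∑ p : Idx n × Bool, μ.real {f | c ≤ |F (y' p) f - F (x0 p) f|} :=
            measureReal_iUnion_fintype_le _
        _ ≤ ∑ p : Idx n × Bool, (d / (4 * N)) := by
            apply Finset.sum_le_sum
            intro p _
            have := markov μ (((hc (y' p)).sub (hc (x0 p))).abs.measurable)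
              (fun f => abs_nonneg _) (fun f => habs _ _ f) (hρ _ _ (hy'ball p)) hc0
            rwa [mul_div_cancel_left₀ _ hc0.ne'] at this
        _ = (N * 2) * (d / (4 * N)) := by
            rw [Finset.sum_const, Finset.card_univ, Fintype.card_prod, card_Idx, Fintype.card_bool,
              nsmul_eq_mul]
            push_cast; rfl
        _ = d / 2 := by field_simp; ring
    have h2 : d ≤ μ.real D + μ.real (⋃ p : Idx n × Bool, {f | c ≤ |F (y' p) f - F (x0 p) f|}) := by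
      rw [hddef]
      calc _ ≤ μ.real (D ∪ ⋃ p : Idx n × Bool, {f | c ≤ |F (y' p) f - F (x0 p) f|}) := by
            refine measureReal_mono ?_ (measure_ne_top _ _)
            intro f hf
            by_cases h : f ∈ ⋃ p : Idx n × Bool, {f | c ≤ |F (y' p) f - F (x0 p) f|}
            · exact Or.inr h
            · exact Or.inl ⟨hf, h⟩
        _ ≤ _ := measureReal_union_le _ _
    linarith
  refine ⟨⟨V', y', e', hV'o, hy', fun p => (hV'sub p).trans (S.hV0 p.1),
    fun p x hx x' hx' => (hV'd p x hx x' hx').trans he'2, he'0, hV'Φ, hV's, he'1, ?_⟩, D, hDm, ?_, ?_, ?_⟩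
  · have h1 : μ.real G ≤ μ.real (GG F c y0 (n + 1) V' y') + μ.real (G \ GG F c y0 (n + 1) V' y') := by
      calc μ.real G ≤ μ.real (GG F c y0 (n + 1) V' y' ∪ (G \ GG F c y0 (n + 1) V' y')) := by
            refine measureReal_mono ?_ (measure_ne_top _ _)
            intro f hf
            by_cases h : f ∈ GG F c y0 (n + 1) V' y'
            · exact Or.inl h
            · exact Or.inr ⟨hf, h⟩
        _ ≤ _ := measureReal_union_le _ _
    have e1 : (1 / 2 : ℝ) ^ (n + 1) = (1 / 2 : ℝ) ^ n / 2 := by rw [pow_succ]; ring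
    have h5 : 4 * c + 4 * c * (1 / 2 : ℝ) ^ n ≤ μ.real G := S.hG
    have h9 : 4 * c + 4 * c * (1 / 2 : ℝ) ^ (n + 1) ≤ μ.real (GG F c y0 (n + 1) V' y') := by
      rw [e1]; linarith
    exact h9
  · intro i ε
    exact (hV'c (i, ε)).trans inter_subset_left
  · show ((n : ℝ) + 1) * e' < c * μ.real D
    have : c * (d / 4) < c * μ.real D := mul_lt_mul_of_pos_left (by linarith) hc0
    linarith
  · rintro f ⟨⟨hfG, hfz⟩, hfn⟩ i
    have h1 : ∀ p : Idx n × Bool, |F (y' p) f - F (x0 p) f| < c := by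
      intro p
      by_contra h
      exact hfn (mem_iUnion.2 ⟨p, not_lt.1 h⟩)
    have ht := h1 (i, true)
    have hf' := h1 (i, false)
    simp only [x0] at ht hf'
    simp only [if_true] at ht
    simp at hf'
    rw [abs_lt] at ht hf'
    have h3 := hfz i
    have h4 := (hfG i).2
    refine ⟨?_, ?_, ?_⟩
    · show F (S.y i) f + 6 * c ≤ F (y' (i, true)) f
      linarith [ht.1]
    · show F (y' (i, false)) f ≤ F (S.y i) f + c
      linarith [hf'.2]
    · refine h4.trans ?_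
      nlinarith

theorem scheme {Z K : Type*} [MetricSpace Z] [TopologicalSpace K] [CompactSpace K] [T2Space K]
    [MeasurableSpace K] [BorelSpace K] (μ : Measure K) [IsProbabilityMeasure μ] [μ.Regular]
    (F : Z → K → ℝ) (hc : ∀ z, Continuous (F z)) (hb : ∀ z f, F z f ∈ Icc (0 : ℝ) 1)
    (hΦ : ∀ z, ∀ e > 0, ∃ ρ > 0, ∀ z', dist z' z < ρ → ∫ f, |F z' f - F z f| ∂μ ≤ e)
    (V0 : Set Z) (hV0 : IsOpen V0) (hV0n : V0.Nonempty) (c : ℝ) (hc0 : 0 < c)
    (hsup : ∀ W ⊆ V0, IsOpen W → ∀ z ∈ W, 16 * c ≤ ∫ f, (sW F W f - F z f) ∂μ) :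
    ∃ (V : ∀ n, Idx n → Set Z) (y : ∀ n, Idx n → Z) (D : ℕ → Set K) (e : ℕ → ℝ),
      (∀ n i, IsOpen (V n i)) ∧ (∀ n i, y n i ∈ V n i) ∧
      (∀ n i ε, closure (V (n + 1) (i, ε)) ⊆ V n i) ∧
      (∀ n i, ∀ x ∈ V n i, ∀ x' ∈ V n i, dist x x' ≤ (1 / 2 : ℝ) ^ n) ∧
      (∀ n, 0 < e n) ∧
      (∀ n i, ∀ x ∈ V n i, ∀ x' ∈ V n i, ∫ f, |F x f - F x' f| ∂μ ≤ e n) ∧
      (∀ n, MeasurableSet (D n)) ∧
      (∀ n : ℕ, ((n : ℝ) + 1) * e (n + 1) < c * μ.real (D n)) ∧
      (∀ n, ∀ f ∈ D n, ∀ i : Idx n, F (y n i) f + 6 * c ≤ F (y (n + 1) (i, true)) f ∧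
        F (y (n + 1) (i, false)) f ≤ F (y n i) f + c ∧ |F (y n i) f - F (y 0 ()) f| ≤ c) := by
  classical
  -- base stage
  have he0 : (0 : ℝ) < min (c ^ 2 / 8) 1 := by positivity
  obtain ⟨V, hVo, ⟨y0, hy0⟩, hVc, hVd, hVΦ, hVs⟩ :=
    precision μ F hc hb hΦ V0 hV0 hV0n (min (c ^ 2 / 8) 1) he0
  have hVV0 : V ⊆ V0 := subset_closure.trans hVc
  have hbase : 8 * c ≤ μ.real {f | 8 * c < sW F V f - F y0 f} := by
    apply anti_markov μ ((meas_sW hc hb _).sub (hc _).measurable)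
    · intro f; exact sub_nonneg.2 (le_sW hb hy0 f)
    · intro f
      have h1 := sW_le_one hb (W := V) ⟨_, hy0⟩ f
      have h2 := (hb y0 f).1
      show sW F V f - F y0 f ≤ 1
      linarith
    · positivity
    · have h : 16 * c ≤ ∫ f, (sW F V f - F y0 f) ∂μ := hsup V hVV0 hVo y0 hy0
      show 2 * (8 * c) ≤ ∫ f, (sW F V f - F y0 f) ∂μ
      linarith
  let S0 : Stage μ F c V0 y0 0 :=
    { V := fun _ => V
      y := fun _ => y0
      e := min (c ^ 2 / 8) 1
      hopen := fun _ => hVo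
      hy := fun _ => hy0
      hV0 := fun _ => hVV0
      hdist := fun _ x hx x' hx' => by
        rw [pow_zero]
        exact (hVd x hx x' hx').trans (min_le_right _ _)
      he := he0
      hΦ := fun _ => hVΦ
      hsup := fun _ => hVs
      hec := by rw [zero_add, pow_one]; exact min_le_left _ _
      hG := by
        have h1 : GG F c y0 0 (fun _ : Idx 0 => V) (fun _ => y0) =
            {f | 8 * c < sW F V f - F y0 f} := by
          ext f
          constructor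
          · intro h
            have := (h ()).1
            show 8 * c < sW F V f - F y0 f
            rw [pow_zero] at this
            linarith
          · intro h _
            have h' : 8 * c < sW F V f - F y0 f := h
            refine ⟨?_, ?_⟩
            · rw [pow_zero]; linarith
            · rw [pow_zero]; simp
        have h2 : 4 * c + 4 * c * (1 / 2 : ℝ) ^ 0 = 8 * c := by rw [pow_zero]; ring
        rw [h2, h1]
        exact hbase }
  choose next D hD hcl hlt hval using stage_step μ F hc hb hΦ V0 c hc0 y0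
  let S : ∀ n, Stage μ F c V0 y0 n := fun n => Nat.rec S0 (fun n S => next n S) n
  have hS : ∀ n, S (n + 1) = next n (S n) := fun n => rfl
  refine ⟨fun n => (S n).V, fun n => (S n).y, fun n => D n (S n), fun n => (S n).e,
    fun n => (S n).hopen, fun n => (S n).hy, fun n i ε => hcl n (S n) i ε, fun n => (S n).hdist,
    fun n => (S n).he, fun n => (S n).hΦ, fun n => hD n (S n), fun n => hlt n (S n), ?_⟩
  intro n f hf i
  exact hval n (S n) f hf i

theorem core_res_congr (b b' : ℕ → Bool) : ∀ n, (∀ m < n, b m = b' m) → res b n = res b' n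
  | 0, _ => rfl
  | n + 1, h => by
      have h1 : res b n = res b' n := core_res_congr b b' n (fun m hm => h m (by omega))
      have h2 : b n = b' n := h n (Nat.lt_succ_self n)
      change ((res b n, b n) : Idx n × Bool) = (res b' n, b' n)
      rw [h1, h2]

theorem core_branch {Z : Type*} [MetricSpace Z] [CompleteSpace Z]
    (V : ∀ n, Idx n → Set Z) (y : ∀ n, Idx n → Z) (hyV : ∀ n i, y n i ∈ V n i)
    (hVcl : ∀ n i ε, closure (V (n + 1) (i, ε)) ⊆ V n i)
    (hVd : ∀ n i, ∀ x ∈ V n i, ∀ x' ∈ V n i, dist x x' ≤ (1 / 2 : ℝ) ^ n) (b : ℕ → Bool) :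
    ∃ Y : Z, ∀ n, Y ∈ V n (res b n) := by
  have hanti : Antitone (fun n => V n (res b n)) :=
    antitone_nat_of_succ_le fun n => subset_closure.trans (hVcl n (res b n) (b n))
  have hmem : ∀ n m, n ≤ m → y m (res b m) ∈ V n (res b n) := fun n m h =>
    hanti h (hyV m (res b m))
  have hcau : CauchySeq (fun n => y n (res b n)) :=
    cauchySeq_of_le_tendsto_0 (fun n => (1 / 2 : ℝ) ^ n)
      (fun n m N hn hm => hVd N (res b N) _ (hmem N n hn) _ (hmem N m hm))
      (tendsto_pow_atTop_nhds_zero_of_lt_one (by norm_num) (by norm_num))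
  obtain ⟨Y, hY⟩ := cauchySeq_tendsto_of_complete hcau
  refine ⟨Y, fun n => ?_⟩
  have h1 : Y ∈ closure (V (n + 1) (res b (n + 1))) :=
    mem_closure_of_tendsto hY (eventually_atTop.2 ⟨n + 1, fun m hm => hmem (n + 1) m hm⟩)
  exact hVcl n (res b n) (b n) h1

theorem core_finite {Z K : Type*} [MetricSpace Z] [TopologicalSpace K]
    [CompactSpace K] [T2Space K]
    [MeasurableSpace K] [BorelSpace K] (μ : Measure K) [IsProbabilityMeasure μ] [μ.Regular]
    (F : Z → K → ℝ) (hc : ∀ z, Continuous (F z)) (c : ℝ) (hc0 : 0 < c)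
    (V : ∀ n, Idx n → Set Z) (y : ∀ n, Idx n → Z) (D : ℕ → Set K) (e : ℕ → ℝ)
    (hyV : ∀ n i, y n i ∈ V n i)
    (he : ∀ n, 0 < e n)
    (hΦV : ∀ n i, ∀ x ∈ V n i, ∀ x' ∈ V n i, ∫ f, |F x f - F x' f| ∂μ ≤ e n)
    (hDe : ∀ n : ℕ, ((n : ℝ) + 1) * e (n + 1) < c * μ.real (D n))
    (hD : ∀ n, ∀ f ∈ D n, ∀ i : Idx n, F (y n i) f + 6 * c ≤ F (y (n + 1) (i, true)) f ∧
        F (y (n + 1) (i, false)) f ≤ F (y n i) f + c ∧ |F (y n i) f - F (y 0 ()) f| ≤ c)
    (Y : (ℕ → Bool) → Z) (hY : ∀ b n, Y b ∈ V n (res b n)) (s : Finset (ℕ → Bool)) :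
    ∃ f : K, ∀ b ∈ s, ((∀ᶠ n in atTop, b n = true) → F (y 0 ()) f + 4 * c ≤ F (Y b) f) ∧
      ((∀ᶠ n in atTop, b n = false) → F (Y b) f ≤ F (y 0 ()) f + 3 * c) := by
  have h1 : ∀ᶠ n in atTop, ∀ b ∈ s, ((∀ᶠ m in atTop, b m = true) → b n = true) ∧
      ((∀ᶠ m in atTop, b m = false) → b n = false) := by
    refine (Filter.eventually_all_finset s).2 fun b _ => ?_
    refine Filter.Eventually.and ?_ ?_
    · by_cases h : ∀ᶠ m in atTop, b m = true
      · exact h.mono fun n hn _ => hn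
      · exact Filter.Eventually.of_forall fun n h' => absurd h' h
    · by_cases h : ∀ᶠ m in atTop, b m = false
      · exact h.mono fun n hn _ => hn
      · exact Filter.Eventually.of_forall fun n h' => absurd h' h
  obtain ⟨n, hn1, hn2⟩ := (h1.and (eventually_ge_atTop s.card)).exists
  -- Markov
  have hmark : ∀ b, c * μ.real {f | c ≤ |F (Y b) f - F (y (n + 1) (res b (n + 1))) f|} ≤
      e (n + 1) := by
    intro b
    have hcont : Continuous (fun f => |F (Y b) f - F (y (n + 1) (res b (n + 1))) f|) :=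
      ((hc _).sub (hc _)).abs
    refine le_trans (mul_meas_ge_le_integral_of_nonneg
      (Filter.Eventually.of_forall fun f => abs_nonneg _)
      (hcont.integrable_of_hasCompactSupport (HasCompactSupport.of_compactSpace _)) c) ?_
    exact hΦV (n + 1) (res b (n + 1)) _ (hY b (n + 1)) _ (hyV _ _)
  obtain ⟨f, hfD, hf⟩ : ∃ f ∈ D n, ∀ b ∈ s,
      |F (Y b) f - F (y (n + 1) (res b (n + 1))) f| < c := by
    by_contra hcon
    push Not at hcon
    have hsub : D n ⊆ ⋃ b ∈ s, {f | c ≤ |F (Y b) f - F (y (n + 1) (res b (n + 1))) f|} := by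
      intro f hf
      obtain ⟨b, hb, hb'⟩ := hcon f hf
      exact Set.mem_biUnion hb hb'
    have h2 : μ.real (D n) ≤
        ∑ b ∈ s, μ.real {f | c ≤ |F (Y b) f - F (y (n + 1) (res b (n + 1))) f|} :=
      le_trans (measureReal_mono hsub (measure_ne_top _ _)) (measureReal_biUnion_finset_le _ _)
    have h3 : c * μ.real (D n) ≤ s.card * e (n + 1) := by
      calc c * μ.real (D n) ≤
          c * ∑ b ∈ s, μ.real {f | c ≤ |F (Y b) f - F (y (n + 1) (res b (n + 1))) f|} :=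
            mul_le_mul_of_nonneg_left h2 hc0.le
        _ = ∑ b ∈ s, c * μ.real {f | c ≤ |F (Y b) f - F (y (n + 1) (res b (n + 1))) f|} :=
            Finset.mul_sum _ _ _
        _ ≤ ∑ b ∈ s, e (n + 1) := Finset.sum_le_sum fun b _ => hmark b
        _ = s.card * e (n + 1) := by rw [Finset.sum_const, nsmul_eq_mul]
    have h4 : (s.card : ℝ) * e (n + 1) ≤ ((n : ℝ) + 1) * e (n + 1) := by
      refine mul_le_mul_of_nonneg_right ?_ (he _).le
      have : (s.card : ℝ) ≤ n := by exact_mod_cast hn2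
      linarith
    exact absurd (hDe n) (not_lt.2 (h3.trans h4))
  refine ⟨f, fun b hb => ⟨fun ht => ?_, fun ht => ?_⟩⟩
  · have hbn : b n = true := (hn1 b hb).1 ht
    have h5 := hf b hb
    have h6 : res b (n + 1) = ((res b n, true) : Idx n × Bool) := by rw [← hbn]; rfl
    rw [h6] at h5
    obtain ⟨g1, -, g3⟩ := hD n f hfD (res b n)
    have g4 := abs_lt.1 h5
    have g5 := abs_le.1 g3
    linarith [g4.1, g5.1]
  · have hbn : b n = false := (hn1 b hb).2 ht
    have h5 := hf b hb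
    have h6 : res b (n + 1) = ((res b n, false) : Idx n × Bool) := by rw [← hbn]; rfl
    rw [h6] at h5
    obtain ⟨-, g2, g3⟩ := hD n f hfD (res b n)
    have g4 := abs_lt.1 h5
    have g5 := abs_le.1 g3
    linarith [g4.2, g5.2]

theorem core {Z K : Type*} [MetricSpace Z] [CompleteSpace Z] [TopologicalSpace K]
    [CompactSpace K] [T2Space K]
    [MeasurableSpace K] [BorelSpace K] (μ : Measure K) [IsProbabilityMeasure μ] [μ.Regular]
    (F : Z → K → ℝ) (hc : ∀ z, Continuous (F z)) (hb : ∀ z f, F z f ∈ Icc (0 : ℝ) 1)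
    (hF : Frag F)
    (hΦ : ∀ z, ∀ e > 0, ∃ ρ > 0, ∀ z', dist z' z < ρ → ∫ f, |F z' f - F z f| ∂μ ≤ e)
    (V0 : Set Z) (hV0 : IsOpen V0) (hV0n : V0.Nonempty) (c : ℝ) (hc0 : 0 < c)
    (hsup : ∀ W ⊆ V0, IsOpen W → ∀ z ∈ W, 16 * c ≤ ∫ f, (sW F W f - F z f) ∂μ) : False := by
  obtain ⟨V, y, D, e, -, hyV, hVcl, hVd, he, hΦV, -, hDe, hD⟩ :=
    scheme μ F hc hb hΦ V0 hV0 hV0n c hc0 hsup
  choose Y hY using core_branch V y hyV hVcl hVd
  have hdist : ∀ b b' n, res b n = res b' n → dist (Y b) (Y b') ≤ (1 / 2 : ℝ) ^ n := by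
    intro b b' n h
    exact hVd n (res b n) _ (hY b n) _ (h ▸ hY b' n)
  have hne : (⋂ b : ℕ → Bool, {f : K |
      ((∀ᶠ n in atTop, b n = true) → F (y 0 ()) f + 4 * c ≤ F (Y b) f) ∧
      ((∀ᶠ n in atTop, b n = false) → F (Y b) f ≤ F (y 0 ()) f + 3 * c)}).Nonempty := by
    refine CompactSpace.iInter_nonempty (fun b => ?_) (fun s => ?_)
    · refine IsClosed.and ?_ ?_
      · by_cases h : ∀ᶠ n in atTop, b n = true
        · simp only [h, true_imp_iff]
          exact isClosed_le ((hc _).add continuous_const) (hc _)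
        · simp only [h, false_imp_iff]
          exact isClosed_const
      · by_cases h : ∀ᶠ n in atTop, b n = false
        · simp only [h, true_imp_iff]
          exact isClosed_le (hc _) ((hc _).add continuous_const)
        · simp only [h, false_imp_iff]
          exact isClosed_const
    · obtain ⟨f, hf⟩ := core_finite μ F hc c hc0 V y D e hyV he hΦV hDe hD Y hY s
      exact ⟨f, Set.mem_iInter₂.2 hf⟩
  obtain ⟨g, hg⟩ := hne
  rw [Set.mem_iInter] at hg
  obtain ⟨W, hWo, ⟨x, hxW, b, hb', rfl⟩, hosc⟩ := hF g c hc0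
    {x | ∃ b : ℕ → Bool, ((∀ᶠ n in atTop, b n = true) ∨ (∀ᶠ n in atTop, b n = false)) ∧
      x = Y b} ⟨Y (fun _ => true), _, Or.inl (Filter.Eventually.of_forall fun _ => rfl), rfl⟩
  obtain ⟨r, hr, hrW⟩ := Metric.isOpen_iff.1 hWo _ hxW
  obtain ⟨n, hn⟩ := exists_pow_lt_of_lt_one hr (by norm_num : (1 / 2 : ℝ) < 1)
  have key : ∀ ε : Bool, Y (fun m => if m < n then b m else ε) ∈ W := by
    intro ε
    refine hrW ?_
    rw [Metric.mem_ball]
    refine lt_of_le_of_lt (hdist _ _ n (core_res_congr _ _ n fun m hm => ?_)) hn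
    simp [hm]
  have hev : ∀ ε : Bool, ∀ᶠ m in atTop, (fun m => if m < n then b m else ε) m = ε := by
    intro ε
    filter_upwards [eventually_ge_atTop n] with m hm
    simp [not_lt.2 hm]
  have h0 := (hg (fun m => if m < n then b m else false)).2 (hev false)
  have h1 := (hg (fun m => if m < n then b m else true)).1 (hev true)
  have h2 := hosc _ ⟨key true, _, Or.inl (hev true), rfl⟩ _ ⟨key false, _, Or.inr (hev false), rfl⟩
  have h3 := (abs_lt.1 h2).2
  linarith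

theorem thin_open_bdd {Z K : Type*} (F : Z → K → ℝ) (hb : ∀ z f, F z f ∈ Icc (0 : ℝ) 1)
    (W : Set Z) (f : K) : BddAbove (range fun x : W => F x f) :=
  ⟨1, by rintro _ ⟨x, rfl⟩; exact (hb x f).2⟩

theorem thin_open_le {Z K : Type*} (F : Z → K → ℝ) (hb : ∀ z f, F z f ∈ Icc (0 : ℝ) 1)
    {W : Set Z} {x : Z} (hx : x ∈ W) (f : K) : F x f ≤ sW F W f :=
  le_ciSup (thin_open_bdd F hb W f) ⟨x, hx⟩

theorem thin_open_mem {Z K : Type*} (F : Z → K → ℝ) (hb : ∀ z f, F z f ∈ Icc (0 : ℝ) 1)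
    {W : Set Z} (hW : W.Nonempty) (f : K) : sW F W f ∈ Icc (0 : ℝ) 1 := by
  obtain ⟨x, hx⟩ := hW
  have : Nonempty W := ⟨⟨x, hx⟩⟩
  exact ⟨(hb x f).1.trans (thin_open_le F hb hx f), ciSup_le fun y => (hb y f).2⟩

theorem thin_open_mono {Z K : Type*} (F : Z → K → ℝ) (hb : ∀ z f, F z f ∈ Icc (0 : ℝ) 1)
    {W V : Set Z} (hW : W.Nonempty) (hWV : W ⊆ V) (f : K) : sW F W f ≤ sW F V f := by
  obtain ⟨x, hx⟩ := hW
  have : Nonempty W := ⟨⟨x, hx⟩⟩
  exact ciSup_le fun y => thin_open_le F hb (hWV y.2) f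

theorem thin_open_int {Z K : Type*} [TopologicalSpace K] [MeasurableSpace K] [BorelSpace K]
    (μ : Measure K) [IsProbabilityMeasure μ]
    (F : Z → K → ℝ) (hc : ∀ z, Continuous (F z)) (hb : ∀ z f, F z f ∈ Icc (0 : ℝ) 1)
    {W : Set Z} (hW : W.Nonempty) : Integrable (sW F W) μ := by
  have hls : LowerSemicontinuous (sW F W) :=
    lowerSemicontinuous_ciSup (fun f => thin_open_bdd F hb W f)
      (fun x => (hc x).lowerSemicontinuous)
  refine Integrable.of_bound hls.measurable.aestronglyMeasurable 1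
    (Eventually.of_forall fun f => ?_)
  have := thin_open_mem F hb hW f
  rw [Real.norm_eq_abs, abs_le]
  exact ⟨by linarith [this.1], this.2⟩

theorem thin_open_intF {Z K : Type*} [TopologicalSpace K] [MeasurableSpace K] [BorelSpace K]
    (μ : Measure K) [IsProbabilityMeasure μ]
    (F : Z → K → ℝ) (hc : ∀ z, Continuous (F z)) (hb : ∀ z f, F z f ∈ Icc (0 : ℝ) 1)
    (z : Z) : Integrable (F z) μ := by
  refine Integrable.of_bound (hc z).measurable.aestronglyMeasurable 1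
    (Eventually.of_forall fun f => ?_)
  have := hb z f
  rw [Real.norm_eq_abs, abs_le]
  exact ⟨by linarith [this.1], this.2⟩

/-- one of the two cases -/
theorem thin_open_case {Z K : Type*} [MetricSpace Z] [CompleteSpace Z] [TopologicalSpace K]
    [CompactSpace K] [T2Space K]
    [MeasurableSpace K] [BorelSpace K] (μ : Measure K) [IsProbabilityMeasure μ] [μ.Regular]
    (F : Z → K → ℝ) (hc : ∀ z, Continuous (F z)) (hb : ∀ z f, F z f ∈ Icc (0 : ℝ) 1)
    (hF : Frag F)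
    (hΦ : ∀ z, ∀ e > 0, ∃ ρ > 0, ∀ z', dist z' z < ρ → ∫ f, |F z' f - F z f| ∂μ ≤ e)
    (V0 : Set Z) (hV0 : IsOpen V0) (hV0n : V0.Nonempty) (η e : ℝ) (hη : 0 < η)
    (he : e = η ^ 2 / 16) (z1 : Z)
    (h1 : ∀ W ⊆ V0, IsOpen W → W.Nonempty → ∫ f, sW F V0 f ∂μ - ∫ f, sW F W f ∂μ ≤ e)
    (h2 : ∀ z ∈ V0, ∫ f, |F z f - F z1 f| ∂μ ≤ e / 2)
    (h3 : η ^ 2 / 2 ≤ ∫ f, sW F V0 f ∂μ - ∫ f, F z1 f ∂μ) : False := by
  refine core μ F hc hb hF hΦ V0 hV0 hV0n (η ^ 2 / 64) (by positivity) ?_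
  intro W hWV hW z hz
  have hWn : W.Nonempty := ⟨z, hz⟩
  have a1 := h1 W hWV hW hWn
  have a2 := h2 z (hWV hz)
  have a3 : ∫ f, F z f ∂μ - ∫ f, F z1 f ∂μ ≤ ∫ f, |F z f - F z1 f| ∂μ := by
    rw [← integral_sub (thin_open_intF μ F hc hb z) (thin_open_intF μ F hc hb z1)]
    exact (le_abs_self _).trans (abs_integral_le_integral_abs)
  rw [integral_sub (thin_open_int μ F hc hb hWn) (thin_open_intF μ F hc hb z)]
  have : 0 < η ^ 2 := by positivity
  subst he
  linarith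

theorem thin_open {Z K : Type*} [MetricSpace Z] [CompleteSpace Z] [Nonempty Z] [TopologicalSpace K]
    [CompactSpace K] [T2Space K]
    [MeasurableSpace K] [BorelSpace K] (μ : Measure K) [IsProbabilityMeasure μ] [μ.Regular]
    (F : Z → K → ℝ) (hc : ∀ z, Continuous (F z)) (hb : ∀ z f, F z f ∈ Icc (0 : ℝ) 1)
    (hF : Frag F)
    (hΦ : ∀ z, ∀ e > 0, ∃ ρ > 0, ∀ z', dist z' z < ρ → ∫ f, |F z' f - F z f| ∂μ ≤ e)
    (η : ℝ) (hη : 0 < η) :
    ∃ W : Set Z, IsOpen W ∧ W.Nonempty ∧ Thin F μ η W := by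
  by_contra hcon
  push Not at hcon
  have hN : ∀ W : Set Z, IsOpen W → W.Nonempty →
      η < μ.real {f | ∃ x ∈ W, ∃ y ∈ W, η < |F x f - F y f|} := fun W h1 h2 =>
    not_le.mp (hcon W h1 h2)
  set F' : Z → K → ℝ := fun z f => 1 - F z f with hF'
  have hc' : ∀ z, Continuous (F' z) := fun z => continuous_const.sub (hc z)
  have hb' : ∀ z f, F' z f ∈ Icc (0 : ℝ) 1 := fun z f =>
    ⟨by simp only [hF']; linarith [(hb z f).2], by simp only [hF']; linarith [(hb z f).1]⟩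
  have habs : ∀ x y f, |F' x f - F' y f| = |F x f - F y f| := by
    intro x y f
    simp only [hF']
    rw [← abs_neg]
    congr 1
    ring
  have hFr' : Frag F' := by
    intro f κ hκ E hE
    obtain ⟨W, hW1, hW2, hW3⟩ := hF f κ hκ E hE
    refine ⟨W, hW1, hW2, fun x hx y hy => ?_⟩
    rw [habs]
    exact hW3 x hx y hy
  have hΦ' : ∀ z, ∀ e > 0, ∃ ρ > 0, ∀ z', dist z' z < ρ → ∫ f, |F' z' f - F' z f| ∂μ ≤ e := by
    intro z e he
    obtain ⟨ρ, hρ, h⟩ := hΦ z e he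
    refine ⟨ρ, hρ, fun z' hz' => ?_⟩
    simp only [habs]
    exact h z' hz'
  set O : Set Z → ℝ := fun W => ∫ f, sW F W f ∂μ + ∫ f, sW F' W f ∂μ - 1 with hO
  have hObig : ∀ W : Set Z, IsOpen W → W.Nonempty → η ^ 2 ≤ O W := by
    intro W hW hWn
    have i1 := thin_open_int μ F hc hb hWn
    have i2 := thin_open_int μ F' hc' hb' hWn
    have hOe : O W = ∫ f, (sW F W f + sW F' W f - 1) ∂μ := by
      have e2 := integral_sub (i1.add i2) (integrable_const (1 : ℝ))
      have e1 := integral_add i1 i2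
      have e3 : ∫ f, (sW F W f + sW F' W f - 1) ∂μ =
          ∫ f, (sW F W + sW F' W) f ∂μ - ∫ _, (1 : ℝ) ∂μ := e2
      have e4 : ∫ f, (sW F W + sW F' W) f ∂μ = ∫ f, sW F W f ∂μ + ∫ f, sW F' W f ∂μ := e1
      rw [e3, e4]
      simp [hO]
    have hosc : ∀ x ∈ W, ∀ y ∈ W, ∀ f, |F x f - F y f| ≤ sW F W f + sW F' W f - 1 := by
      intro x hx y hy f
      have b1 := thin_open_le F hb hx f
      have b2 := thin_open_le F hb hy f
      have b3 := thin_open_le F' hb' hx f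
      have b4 := thin_open_le F' hb' hy f
      simp only [hF'] at b3 b4
      rw [abs_le]
      constructor <;> linarith
    have hnn : ∀ f, 0 ≤ sW F W f + sW F' W f - 1 := by
      intro f
      obtain ⟨x, hx⟩ := hWn
      exact (abs_nonneg _).trans (hosc x hx x hx f)
    have hmk := mul_meas_ge_le_integral_of_nonneg (μ := μ) (Eventually.of_forall hnn)
      ((i1.add i2).sub (integrable_const (1 : ℝ))) η
    have hsub : μ.real {f | ∃ x ∈ W, ∃ y ∈ W, η < |F x f - F y f|} ≤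
        μ.real {f | η ≤ sW F W f + sW F' W f - 1} := by
      refine measureReal_mono ?_ (measure_ne_top _ _)
      rintro f ⟨x, hx, y, hy, h⟩
      exact h.le.trans (hosc x hx y hy f)
    have h4 := hN W hW hWn
    have h5 : η * μ.real {f | η ≤ sW F W f + sW F' W f - 1} ≤ O W := by
      rw [hOe]
      exact hmk
    have h6 : η * η ≤ η * μ.real {f | η ≤ sW F W f + sW F' W f - 1} :=
      mul_le_mul_of_nonneg_left (h4.le.trans hsub) hη.le
    nlinarith
  set S : Set ℝ := {r | ∃ W : Set Z, IsOpen W ∧ W.Nonempty ∧ O W = r} with hS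
  have hSb : BddBelow S := ⟨η ^ 2, by rintro _ ⟨W, h1, h2, rfl⟩; exact hObig W h1 h2⟩
  have hSn : S.Nonempty := ⟨O univ, univ, isOpen_univ, univ_nonempty, rfl⟩
  have he : 0 < η ^ 2 / 16 := by positivity
  obtain ⟨_, ⟨V1, hV1, ⟨z1, hz1⟩, rfl⟩, hlt⟩ := exists_lt_of_csInf_lt hSn
    (lt_add_of_pos_right (sInf S) he)
  obtain ⟨ρ1, hρ1, hball⟩ := Metric.isOpen_iff.mp hV1 z1 hz1
  obtain ⟨ρ2, hρ2, hρ2'⟩ := hΦ z1 (η ^ 2 / 16 / 2) (by positivity)
  set V0 := Metric.ball z1 (min ρ1 ρ2) with hV0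
  have hV0o : IsOpen V0 := Metric.isOpen_ball
  have hV0n : V0.Nonempty := ⟨z1, Metric.mem_ball_self (lt_min hρ1 hρ2)⟩
  have hV01 : V0 ⊆ V1 := (Metric.ball_subset_ball (min_le_left _ _)).trans hball
  have hmono : ∀ (G : Z → K → ℝ), (∀ z, Continuous (G z)) → (∀ z f, G z f ∈ Icc (0 : ℝ) 1) →
      ∀ W V : Set Z, W.Nonempty → W ⊆ V → ∫ f, sW G W f ∂μ ≤ ∫ f, sW G V f ∂μ := by
    intro G g1 g2 W V hW hWV
    exact integral_mono (thin_open_int μ G g1 g2 hW) (thin_open_int μ G g1 g2 (hW.mono hWV))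
      (fun f => thin_open_mono G g2 hW hWV f)
  have hOV0 : O V0 ≤ O V1 := by
    have m1 := hmono F hc hb V0 V1 hV0n hV01
    have m2 := hmono F' hc' hb' V0 V1 hV0n hV01
    simp only [hO]
    linarith
  have hdiff : ∀ W ⊆ V0, IsOpen W → W.Nonempty →
      (∫ f, sW F V0 f ∂μ - ∫ f, sW F W f ∂μ ≤ η ^ 2 / 16) ∧
      (∫ f, sW F' V0 f ∂μ - ∫ f, sW F' W f ∂μ ≤ η ^ 2 / 16) := by
    intro W hWV hW hWn
    have m1 := hmono F hc hb W V0 hWn hWV
    have m2 := hmono F' hc' hb' W V0 hWn hWV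
    have m3 : sInf S ≤ O W := csInf_le hSb ⟨W, hW, hWn, rfl⟩
    have m4 : O V0 - O W ≤ η ^ 2 / 16 := by linarith
    simp only [hO] at m4
    constructor <;> linarith
  have hz : ∀ z ∈ V0, ∫ f, |F z f - F z1 f| ∂μ ≤ η ^ 2 / 16 / 2 := by
    intro z hz
    exact hρ2' z ((Metric.mem_ball.mp hz).trans_le (min_le_right _ _))
  have hbig := hObig V0 hV0o hV0n
  have hsum : ∫ f, F' z1 f ∂μ = 1 - ∫ f, F z1 f ∂μ := by
    simp only [hF']
    rw [integral_sub (integrable_const _) (thin_open_intF μ F hc hb z1)]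
    simp
  rcases le_or_gt (η ^ 2 / 2) (∫ f, sW F V0 f ∂μ - ∫ f, F z1 f ∂μ) with hcase | hcase
  · exact thin_open_case μ F hc hb hF hΦ V0 hV0o hV0n η _ hη rfl z1
      (fun W h1 h2 h3 => (hdiff W h1 h2 h3).1) hz hcase
  · refine thin_open_case μ F' hc' hb' hFr' hΦ' V0 hV0o hV0n η _ hη rfl z1
      (fun W h1 h2 h3 => (hdiff W h1 h2 h3).2) (fun z h => by simp only [habs]; exact hz z h) ?_
    rw [hsum]
    simp only [hO] at hbig
    linarith

end Pool.Agent.Helper249.RC
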