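import Pool.Agent.Helper249.RC.Abs
import Pool.Agent.Helper249.RC.Scheme

set_option autoImplicit false
open MeasureTheory Set Filter Topology

namespace Pool.Agent.Helper249.RC

theorem exhaust {X : Type*} [TopologicalSpace X] [SecondCountableTopology X] (P : Set X → Prop)
    (h0 : P ∅) (hmono : ∀ s t, s ⊆ t → P t → P s)
    (h : ∀ Y : Set X, IsClosed Y → Y.Nonempty → ∃ W, IsOpen W ∧ (W ∩ Y).Nonempty ∧ P (W ∩ Y)) :
    ∃ B : ℕ → Set X, (∀ i, P (B i)) ∧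
      (∀ i, ∃ W Y, IsOpen W ∧ IsClosed Y ∧ B i = W ∩ Y) ∧ ⋃ i, B i = univ := by
  classical
  set Q : Set X → Prop := fun s => P s ∧ ∃ W Y, IsOpen W ∧ IsClosed Y ∧ s = W ∩ Y with hQ
  set good : Set X → Prop := fun s => ∃ 𝓢 : Set (Set X), 𝓢.Countable ∧ (∀ t ∈ 𝓢, Q t) ∧
    s ⊆ ⋃₀ 𝓢 with hgood
  set 𝓑 := TopologicalSpace.countableBasis X with h𝓑
  have hbas := TopologicalSpace.isBasis_countableBasis X
  set 𝓖 : Set (Set X) := {U | U ∈ 𝓑 ∧ good U} with h𝓖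
  have hGc : 𝓖.Countable := (TopologicalSpace.countable_countableBasis X).mono fun U hU => hU.1
  have hGg : ∀ U : 𝓖, good U := fun U => U.2.2
  choose f hf1 hf2 hf3 using hGg
  have : Countable 𝓖 := hGc.to_subtype
  set 𝓢0 : Set (Set X) := ⋃ U : 𝓖, f U with h𝓢0
  have hS1 : 𝓢0.Countable := countable_iUnion hf1
  have hS2 : ∀ t ∈ 𝓢0, Q t := by
    intro t ht
    obtain ⟨U, hU⟩ := mem_iUnion.1 ht
    exact hf2 U t hU
  have hS3 : ⋃₀ 𝓖 ⊆ ⋃₀ 𝓢0 := by
    rintro x ⟨U, hU, hx⟩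
    obtain ⟨t, ht, hxt⟩ := hf3 ⟨U, hU⟩ hx
    exact ⟨t, mem_iUnion.2 ⟨⟨U, hU⟩, ht⟩, hxt⟩
  have hGo : IsOpen (⋃₀ 𝓖) := isOpen_sUnion fun U hU => hbas.isOpen hU.1
  have huniv : ⋃₀ 𝓖 = univ := by
    by_contra hne
    have hY : ((⋃₀ 𝓖)ᶜ).Nonempty := nonempty_compl.2 hne
    obtain ⟨W, hW, ⟨x, hxW, hxY⟩, hP⟩ := h _ hGo.isClosed_compl hY
    obtain ⟨U, hU, hxU, hUW⟩ := hbas.exists_subset_of_mem_open hxW hW
    apply hxY
    refine ⟨U, ⟨hU, insert (U ∩ (⋃₀ 𝓖)ᶜ) 𝓢0, hS1.insert _, ?_, ?_⟩, hxU⟩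
    · intro t ht
      rcases ht with rfl | ht
      · exact ⟨hmono _ _ (inter_subset_inter_left _ hUW) hP, U, _, hbas.isOpen hU,
          hGo.isClosed_compl, rfl⟩
      · exact hS2 t ht
    · intro y hy
      by_cases hyG : y ∈ ⋃₀ 𝓖
      · obtain ⟨t, ht, hyt⟩ := hS3 hyG
        exact ⟨t, mem_insert_of_mem _ ht, hyt⟩
      · exact ⟨_, mem_insert _ _, hy, hyG⟩
  obtain ⟨B, hB⟩ := (hS1.insert ∅).exists_eq_range (insert_nonempty ∅ 𝓢0)
  have hBQ : ∀ i, Q (B i) := by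
    intro i
    have hi : B i ∈ insert ∅ 𝓢0 := by rw [hB]; exact mem_range_self i
    rcases hi with hi | hi
    · rw [hi]
      exact ⟨h0, ∅, univ, isOpen_empty, isClosed_univ, by simp⟩
    · exact hS2 _ hi
  refine ⟨B, fun i => (hBQ i).1, fun i => (hBQ i).2, ?_⟩
  apply eq_univ_of_forall
  intro x
  have hx : x ∈ ⋃₀ 𝓖 := by rw [huniv]; exact mem_univ x
  obtain ⟨t, ht, hxt⟩ := hS3 hx
  have ht2 : t ∈ range B := by rw [← hB]; exact mem_insert_of_mem _ ht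
  obtain ⟨i, hi⟩ := ht2
  exact mem_iUnion.2 ⟨i, by rw [hi]; exact hxt⟩

lemma cover_aux {X K : Type*} [TopologicalSpace X] [PolishSpace X] [TopologicalSpace K]
    [CompactSpace K] [T2Space K]
    [MeasurableSpace K] [BorelSpace K] (μ : Measure K) [IsProbabilityMeasure μ] [μ.Regular]
    (F : X → K → ℝ) (hc : ∀ z, Continuous (F z)) (hb : ∀ z f, F z f ∈ Icc (0 : ℝ) 1)
    (hF : Frag F)
    (hΦ : ∀ z, ∀ e > 0, ∃ U : Set X, IsOpen U ∧ z ∈ U ∧ ∀ z' ∈ U, ∫ f, |F z' f - F z f| ∂μ ≤ e)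
    (η : ℝ) (hη : 0 < η) :
    ∃ V : ℕ → Set X, (∀ n, Thin F μ η (V n)) ∧ ⋃ n, V n = univ := by
  obtain ⟨B, hB1, _, hB3⟩ := exhaust (X := X) (fun s => Thin F μ η s)
    (by
      show μ.real {f | ∃ x ∈ (∅ : Set X), ∃ y ∈ (∅ : Set X), η < |F x f - F y f|} ≤ η
      have : {f | ∃ x ∈ (∅ : Set X), ∃ y ∈ (∅ : Set X), η < |F x f - F y f|} = ∅ := by
        ext f
        simp
      rw [this]
      simpa using hη.le)
    (by
      intro s t hst ht
      refine le_trans (measureReal_mono ?_) ht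
      rintro f ⟨x, hx, y, hy, h⟩
      exact ⟨x, hst hx, y, hst hy, h⟩)
    (by
      intro Y hY hYne
      letI := TopologicalSpace.upgradeIsCompletelyMetrizable X
      haveI : CompleteSpace Y := hY.completeSpace_coe
      haveI : Nonempty Y := hYne.to_subtype
      obtain ⟨W', hW', hW'ne, hthin⟩ := thin_open (Z := Y) μ (fun z => F z) (fun z => hc z)
        (fun z f => hb z f)
        (by
          intro f κ hκ E hE
          obtain ⟨W, hW, hWne, hWW⟩ := hF f κ hκ (Subtype.val '' E) (hE.image _)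
          refine ⟨Subtype.val ⁻¹' W, hW.preimage continuous_subtype_val, ?_, ?_⟩
          · obtain ⟨_, h1, ⟨x, hx, rfl⟩⟩ := hWne
            exact ⟨x, h1, hx⟩
          · rintro x ⟨hx1, hx2⟩ y ⟨hy1, hy2⟩
            exact hWW x ⟨hx1, x, hx2, rfl⟩ y ⟨hy1, y, hy2, rfl⟩)
        (by
          intro z e he
          obtain ⟨U, hU, hzU, hUU⟩ := hΦ z e he
          obtain ⟨ρ, hρ, hball⟩ := Metric.isOpen_iff.mp hU z hzU
          exact ⟨ρ, hρ, fun z' hz' => hUU z' (hball hz')⟩)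
        η hη
      obtain ⟨W, hW, rfl⟩ := isOpen_induced_iff.mp hW'
      refine ⟨W, hW, ?_, ?_⟩
      · obtain ⟨x, hx⟩ := hW'ne
        exact ⟨x, hx, x.2⟩
      · refine le_trans (measureReal_mono ?_) hthin
        rintro f ⟨x, hx, y, hy, h⟩
        exact ⟨⟨x, hx.2⟩, hx.1, ⟨y, hy.2⟩, hy.1, h⟩)
  exact ⟨B, hB1, hB3⟩

lemma cover_step {X K : Type*} [TopologicalSpace X] [PolishSpace X] [TopologicalSpace K]
    [MeasurableSpace K] [BorelSpace K] (μ : Measure K) [IsProbabilityMeasure μ]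
    (F : X → K → ℝ) (hc : ∀ z, Continuous (F z)) (hb : ∀ z f, F z f ∈ Icc (0 : ℝ) 1)
    (hF : Frag F) (e : ℝ) (he : 0 < e) :
    ∃ B : ℕ → Set X, (∀ i, ∀ x ∈ B i, ∀ y ∈ B i, ∫ f, |F x f - F y f| ∂μ ≤ e) ∧
      (∀ i, ∃ W Y, IsOpen W ∧ IsClosed Y ∧ B i = W ∩ Y) ∧ ⋃ i, B i = univ := by
  refine exhaust (X := X) (fun s => ∀ x ∈ s, ∀ y ∈ s, ∫ f, |F x f - F y f| ∂μ ≤ e) ?_ ?_ ?_
  · intro x hx
    exact absurd hx (Set.notMem_empty x)
  · intro s t hst ht x hx y hy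
    exact ht x (hst hx) y (hst hy)
  · intro Y _ hYne
    letI := TopologicalSpace.upgradeIsCompletelyMetrizable X
    exact d1 μ F (fun x => (hc x).measurable) hb hF Y hYne e he

theorem cover {X K : Type*} [TopologicalSpace X] [PolishSpace X] [TopologicalSpace K]
    [CompactSpace K] [T2Space K]
    [MeasurableSpace K] [BorelSpace K] (μ : Measure K) [IsProbabilityMeasure μ] [μ.Regular]
    (F : X → K → ℝ) (hc : ∀ z, Continuous (F z)) (hb : ∀ z f, F z f ∈ Icc (0 : ℝ) 1)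
    (hF : Frag F) (η : ℝ) (hη : 0 < η) :
    ∃ V : ℕ → Set X, (∀ n, Thin F μ η (V n)) ∧ ⋃ n, V n = univ := by
  have hstep : ∀ k : ℕ, ∃ B : ℕ → Set X,
      (∀ i, ∀ x ∈ B i, ∀ y ∈ B i, ∫ f, |F x f - F y f| ∂μ ≤ 1 / ((k : ℝ) + 1)) ∧
      (∀ i, ∃ W Y, IsOpen W ∧ IsClosed Y ∧ B i = W ∩ Y) ∧ ⋃ i, B i = univ := fun k =>
    cover_step μ F hc hb hF (1 / ((k : ℝ) + 1)) (by positivity)
  choose B hB1 hB2 hB3 using hstep
  choose W Y hW hY hBWY using hB2
  have hclop := fun k i => (hY k i).isClopenable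
  choose m mt mp mc mo using hclop
  obtain ⟨t', h1, h2, h3⟩ := PolishSpace.exists_polishSpace_forall_le
    (fun p : ℕ × ℕ => m p.1 p.2) (fun p => mt p.1 p.2) (fun p => mp p.1 p.2)
  have hFrag : @Frag X K t' F := by
    intro f κ hκ E hE
    obtain ⟨V, hV, hV2⟩ := hF f κ hκ E hE
    exact ⟨V, h2 V hV, hV2⟩
  refine @cover_aux X K t' h3 _ _ _ _ _ μ _ _ F hc hb hFrag ?_ η hη
  intro z e he
  obtain ⟨k, hk⟩ := exists_nat_one_div_lt he
  have hz : z ∈ ⋃ i, B k i := by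
    rw [hB3 k]
    exact mem_univ z
  obtain ⟨i, hi⟩ := mem_iUnion.mp hz
  refine ⟨B k i, ?_, hi, fun z' hz' => (hB1 k i z' hz' z hi).trans hk.le⟩
  rw [hBWY k i]
  exact @IsOpen.inter X t' (W k i) (Y k i) (h2 _ (hW k i)) (h1 (k, i) _ (mo k i))

theorem frag_baireOne {X K : Type*} [TopologicalSpace X] [PolishSpace X] (F : X → K → ℝ)
    (h : ∀ f, BaireOne (fun x => F x f)) : Frag F := by
  intro f κ hκ E hE
  obtain ⟨g, hg, hlim⟩ := h f
  have hY : IsClosed (closure E) := isClosed_closure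
  haveI : PolishSpace (closure E) := hY.polishSpace
  haveI : Nonempty (closure E) := hE.closure.to_subtype
  haveI : BaireSpace (closure E) := by
    letI := TopologicalSpace.upgradeIsCompletelyMetrizable (closure E)
    infer_instance
  obtain ⟨A, hA⟩ : ∃ A : ℕ → Set (closure E), A = fun N =>
    {x : closure E | ∀ n, N ≤ n → ∀ m, N ≤ m → |g n x - g m x| ≤ κ / 8} := ⟨_, rfl⟩
  have hAc : ∀ N, IsClosed (A N) := by
    intro N
    have h1 : A N = ⋂ n, ⋂ (_ : N ≤ n), ⋂ m, ⋂ (_ : N ≤ m),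
        {x : closure E | |g n x - g m x| ≤ κ / 8} := by
      rw [hA]
      ext x
      simp only [mem_iInter]
      rfl
    rw [h1]
    refine isClosed_iInter (fun n => isClosed_iInter (fun _ => isClosed_iInter (fun m =>
      isClosed_iInter (fun _ => ?_))))
    have c1 : Continuous (fun x : closure E => g n x) := (hg n).comp continuous_subtype_val
    have c2 : Continuous (fun x : closure E => g m x) := (hg m).comp continuous_subtype_val
    exact isClosed_le (c1.sub c2).abs continuous_const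
  have hAU : ⋃ N, A N = univ := by
    rw [eq_univ_iff_forall]
    intro x
    have hx := hlim x
    rw [Metric.tendsto_atTop] at hx
    obtain ⟨N, hN⟩ := hx (κ / 16) (by linarith)
    refine mem_iUnion.mpr ⟨N, ?_⟩
    rw [hA]
    intro n hn m hm
    have h1 := hN n hn
    have h2 := hN m hm
    rw [Real.dist_eq] at h1 h2
    have h3 := abs_lt.mp h1
    have h4 := abs_lt.mp h2
    rw [abs_le]
    constructor <;> linarith
  obtain ⟨N, hN⟩ := nonempty_interior_of_iUnion_of_closed hAc hAU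
  obtain ⟨x₀, hx₀⟩ := hN
  obtain ⟨W1, hW1, hW1e⟩ := isOpen_induced_iff.mp (isOpen_interior (s := A N))
  have hx₀W : (x₀ : X) ∈ W1 := by
    rw [← hW1e] at hx₀
    exact hx₀
  have hW1A : ∀ x, x ∈ W1 → ∀ hx : x ∈ closure E, (⟨x, hx⟩ : closure E) ∈ A N := by
    intro x hx hxE
    have : (⟨x, hxE⟩ : closure E) ∈ Subtype.val ⁻¹' W1 := hx
    rw [hW1e] at this
    exact interior_subset this
  have hWo : IsOpen (W1 ∩ {x | |g N x - g N x₀| < κ / 8}) :=
    hW1.inter (isOpen_lt (((hg N).sub continuous_const).abs) continuous_const)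
  refine ⟨W1 ∩ {x | |g N x - g N x₀| < κ / 8}, hWo, ?_, ?_⟩
  · refine mem_closure_iff.mp x₀.2 _ hWo ⟨hx₀W, ?_⟩
    show |g N x₀ - g N x₀| < κ / 8
    rw [sub_self, abs_zero]
    linarith
  · have key : ∀ x ∈ (W1 ∩ {x | |g N x - g N x₀| < κ / 8}) ∩ E,
        |g N x - F x f| ≤ κ / 8 ∧ |g N x - g N x₀| < κ / 8 := by
      rintro x ⟨⟨hx1, hx2⟩, hxE⟩
      refine ⟨?_, hx2⟩
      have h1 := hW1A x hx1 (subset_closure hxE)
      rw [hA] at h1
      have h2 : ∀ n, N ≤ n → ∀ m, N ≤ m → |g n x - g m x| ≤ κ / 8 := h1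
      have h3 : Tendsto (fun m => |g N x - g m x|) atTop (𝓝 (|g N x - F x f|)) :=
        (tendsto_const_nhds.sub (hlim x)).abs
      refine le_of_tendsto h3 ?_
      filter_upwards [eventually_ge_atTop N] with m hm
      exact h2 N le_rfl m hm
    intro x hx y hy
    obtain ⟨h1, h2⟩ := key x hx
    obtain ⟨h3, h4⟩ := key y hy
    have e1 := abs_le.mp h1
    have e2 := abs_lt.mp h2
    have e3 := abs_le.mp h3
    have e4 := abs_lt.mp h4
    rw [abs_lt]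
    constructor <;> linarith

end Pool.Agent.Helper249.RC
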