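import Mathlib

/-!
Definitions used in the statement: measures with metrizable-like support, the class of compact
spaces all of whose regular Borel probability measures have it, functions of the first Baire class.
-/

set_option autoImplicit false
open MeasureTheory Set Filter Topology

namespace Pool.Agent.Helper249.RC

/-- A Borel measure `μ` on `S` has metrizable-like support if there is a sequence `A i` of finite
families of pairwise disjoint compact subsets of `S` such that for every open cover `U` of `S` and
every `ε > 0` there is an index `i` such that `A i` refines `U` and the complement of the union of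
`A i` has measure less than `ε`. -/
def MetrizableLikeSupport {S : Type*} [TopologicalSpace S] [MeasurableSpace S] (μ : Measure S) :
    Prop :=
  ∃ A : ℕ → Set (Set S), (∀ i, (A i).Finite) ∧ (∀ i, ∀ a ∈ A i, IsCompact a) ∧
    (∀ i, (A i).PairwiseDisjoint id) ∧
    ∀ U : Set (Set S), (∀ u ∈ U, IsOpen u) → ⋃₀ U = univ → ∀ ε : ℝ, 0 < ε →
      ∃ i, (∀ a ∈ A i, ∃ u ∈ U, a ⊆ u) ∧ μ (⋃₀ A i)ᶜ < ENNReal.ofReal ε

/-- The class `𝒮` of compact (Hausdorff) spaces `S` such that every regular Borel probability
measure on `S` has metrizable-like support. -/
def ClassS (S : Type*) [TopologicalSpace S] : Prop :=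
  CompactSpace S ∧ T2Space S ∧
    ∀ μ : @Measure S (borel S), @IsProbabilityMeasure S (borel S) μ →
      @Measure.Regular S (borel S) _ μ → @MetrizableLikeSupport S _ (borel S) μ

/-- Real-valued functions of the first Baire class: pointwise limits of sequences of continuous
functions. -/
def BaireOne {X : Type*} [TopologicalSpace X] (f : X → ℝ) : Prop :=
  ∃ g : ℕ → X → ℝ, (∀ n, Continuous (g n)) ∧ ∀ x, Tendsto (fun n => g n x) atTop (𝓝 (f x))

end Pool.Agent.Helper249.RC
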