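import Pool.Agent.Helper249.RC.Base

set_option autoImplicit false
open MeasureTheory Set Filter Topology

namespace Pool.Agent.Helper249.RC

theorem support_min {X : Type*} (I : Finset X) (p : X → ℝ → Prop)
    (mono : ∀ x r r', r' ≤ r → p x r → p x r') (h : ∀ x ∈ I, ∃ r : ℝ, 0 < r ∧ p x r) :
    ∃ r : ℝ, 0 < r ∧ ∀ x ∈ I, p x r := by
  classical
  induction I using Finset.induction_on with
  | empty => exact ⟨1, one_pos, by simp⟩
  | insert a s ha ih =>
    obtain ⟨r1, h1, h1'⟩ := ih (fun x hx => h x (Finset.mem_insert_of_mem hx))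
    obtain ⟨r2, h2, h2'⟩ := h a (Finset.mem_insert_self a s)
    refine ⟨min r1 r2, lt_min h1 h2, fun x hx => ?_⟩
    rcases Finset.mem_insert.1 hx with rfl | hx
    · exact mono _ _ _ (min_le_right _ _) h2'
    · exact mono _ _ _ (min_le_left _ _) (h1' x hx)

theorem support_lebesgue {X K : Type*} [TopologicalSpace K] [CompactSpace K] [T2Space K]
    (F : X → K → ℝ) (hc : ∀ z, Continuous (F z))
    (hsep : ∀ f g, (∀ x, F x f = F x g) → f = g)
    (U : Set (Set K)) (hU : ∀ u ∈ U, IsOpen u) (hcov : ⋃₀ U = univ) :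
    ∃ (F0 : Finset X) (δ : ℝ), 0 < δ ∧ ∀ f : K, ∃ u ∈ U, ∀ g : K,
      (∀ x ∈ F0, |F x f - F x g| ≤ δ) → g ∈ u := by
  classical
  have hι : Topology.IsClosedEmbedding (fun (f : K) (x : X) => F x f) :=
    Continuous.isClosedEmbedding (continuous_pi hc) (fun f g h => hsep f g (fun x => congrFun h x))
  have hloc : ∀ f : K, ∃ (I : Finset X) (r : ℝ) (u : Set K), 0 < r ∧ u ∈ U ∧
      ∀ g : K, (∀ x ∈ I, |F x f - F x g| < 2 * r) → g ∈ u := by
    intro f
    obtain ⟨u, hu, hfu⟩ : ∃ u ∈ U, f ∈ u := by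
      have : f ∈ ⋃₀ U := by rw [hcov]; trivial
      exact this
    have hn : u ∈ 𝓝 f := (hU u hu).mem_nhds hfu
    rw [hι.isInducing.nhds_eq_comap, Filter.mem_comap] at hn
    obtain ⟨t, ht, htu⟩ := hn
    rw [nhds_pi, Filter.mem_pi'] at ht
    obtain ⟨I, s, hs, hIs⟩ := ht
    obtain ⟨r, hr, hr'⟩ := support_min I (fun x r => Metric.ball (F x f) r ⊆ s x)
      (fun x r r' hrr h => (Metric.ball_subset_ball hrr).trans h)
      (fun x _ => by
        obtain ⟨r, hr, h⟩ := Metric.mem_nhds_iff.1 (hs x)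
        exact ⟨r, hr, h⟩)
    refine ⟨I, r / 2, u, half_pos hr, hu, fun g hg => htu (hIs ?_)⟩
    intro x hx
    apply hr' x hx
    rw [Metric.mem_ball, Real.dist_eq, abs_sub_comm]
    have := hg x hx
    linarith
  choose I r u hr hu hg using hloc
  obtain ⟨t, ht⟩ := CompactSpace.elim_nhds_subcover
    (fun f : K => {g : K | ∀ x ∈ I f, |F x f - F x g| < r f}) (by
      intro f
      have ho : IsOpen {g : K | ∀ x ∈ I f, |F x f - F x g| < r f} := by
        have : {g : K | ∀ x ∈ I f, |F x f - F x g| < r f} =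
            ⋂ x ∈ I f, {g : K | |F x f - F x g| < r f} := by
          ext g; simp
        rw [this]
        exact isOpen_biInter_finset (fun x _ =>
          isOpen_lt ((continuous_const.sub (hc x)).abs) continuous_const)
      apply ho.mem_nhds
      intro x _
      simpa using hr f)
  obtain ⟨δ, hδ, hδ'⟩ := support_min t (fun f d => d ≤ r f) (fun x r r' h h' => h.trans h')
    (fun f _ => ⟨r f, hr f, le_rfl⟩)
  refine ⟨t.biUnion I, δ, hδ, fun f => ?_⟩
  have hf : f ∈ ⋃ f' ∈ t, {g : K | ∀ x ∈ I f', |F x f' - F x g| < r f'} := by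
    rw [ht]; trivial
  obtain ⟨f', hf't, hf'⟩ := Set.mem_iUnion₂.1 hf
  refine ⟨u f', hu f', fun g hgg => hg f' g (fun x hx => ?_)⟩
  have h1 : |F x f' - F x f| < r f' := hf' x hx
  have h2 := hgg x (Finset.mem_biUnion.2 ⟨f', hf't, hx⟩)
  have h3 := hδ' f' hf't
  have h4 := abs_sub_le (F x f') (F x f) (F x g)
  linarith

theorem support_piece {K : Type*} [TopologicalSpace K]
    [CompactSpace K] [T2Space K]
    [MeasurableSpace K] [BorelSpace K] (μ : Measure K) [IsProbabilityMeasure μ] [μ.Regular]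
    (O : ℕ → Set K) (hO : ∀ n, IsOpen (O n)) (η : ℝ) (hη : 0 ≤ η) (hOm : ∀ n, μ.real (O n) ≤ η)
    (G : ℕ → K → ℝ) (hG : ∀ n, Continuous (G n)) (hG1 : ∀ n f, G n f ∈ Icc (0:ℝ) 1)
    (L : List ℕ) (N M : ℕ) :
    ∃ A : Set (Set K), A.Finite ∧ (∀ a ∈ A, IsCompact a) ∧ A.PairwiseDisjoint id ∧
      μ (⋃₀ A)ᶜ ≤ ENNReal.ofReal (L.length * η + 1 / ((M:ℝ) + 1)) ∧
      ∀ a ∈ A, ∀ f ∈ a, ∀ g ∈ a, ∀ n ∈ L, f ∉ O n ∧ |G n f - G n g| ≤ 1 / ((N:ℝ) + 1) := by
  classical
  set P : (Fin L.length → Fin (N + 2)) → Set K := fun c =>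
    {f | ∀ i, ⌊((N:ℝ) + 1) * G (L.get i) f⌋₊ = (c i : ℕ)} with hP
  set Q : (Fin L.length → Fin (N + 2)) → Set K := fun c => P c ∩ ⋂ i, (O (L.get i))ᶜ with hQ
  have hPm : ∀ c, MeasurableSet (P c) := by
    intro c
    have : P c = ⋂ i, {f | ⌊((N:ℝ) + 1) * G (L.get i) f⌋₊ = (c i : ℕ)} := by
      ext f; simp [hP]
    rw [this]
    apply MeasurableSet.iInter
    intro i
    have hm : Measurable (fun f => ⌊((N:ℝ) + 1) * G (L.get i) f⌋₊) :=
      Nat.measurable_floor.comp ((hG _).measurable.const_mul _)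
    exact hm (measurableSet_singleton _)
  have hQm : ∀ c, MeasurableSet (Q c) := fun c =>
    (hPm c).inter (MeasurableSet.iInter fun i => (hO _).measurableSet.compl)
  set k : ℕ := Fintype.card (Fin L.length → Fin (N + 2)) with hk
  have hk0 : 0 < k := Fintype.card_pos
  have hM0 : (0:ℝ) < 1 / ((M:ℝ) + 1) := by positivity
  have hC : ∀ c, ∃ C ⊆ Q c, IsCompact C ∧
      μ (Q c \ C) < ENNReal.ofReal (1 / ((M:ℝ) + 1) / k) := by
    intro c
    apply (hQm c).exists_isCompact_sdiff_lt (measure_ne_top _ _)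
    have : (0:ℝ) < 1 / ((M:ℝ) + 1) / k := by positivity
    exact (ENNReal.ofReal_pos.2 this).ne'
  choose C hCQ hCc hCm using hC
  refine ⟨Set.range C, Set.finite_range C, ?_, ?_, ?_, ?_⟩
  · rintro _ ⟨c, rfl⟩
    exact hCc c
  · rintro _ ⟨c, rfl⟩ _ ⟨c', rfl⟩ hne
    show Disjoint (C c) (C c')
    rw [Set.disjoint_left]
    intro f hf hf'
    apply hne
    have : c = c' := by
      ext i
      rw [← (hCQ c hf).1 i, ← (hCQ c' hf').1 i]
    rw [this]
  · have hsub : (⋃₀ Set.range C)ᶜ ⊆ (⋃ i : Fin L.length, O (L.get i)) ∪ ⋃ c, (Q c \ C c) := by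
      intro f hf
      by_cases h : f ∈ ⋃ i : Fin L.length, O (L.get i)
      · exact Or.inl h
      · right
        have hlt : ∀ i : Fin L.length, ⌊((N:ℝ) + 1) * G (L.get i) f⌋₊ < N + 2 := by
          intro i
          rw [Nat.floor_lt' (by omega)]
          have := (hG1 (L.get i) f).2
          push_cast
          nlinarith
        refine Set.mem_iUnion.2 ⟨fun i => ⟨_, hlt i⟩, ⟨fun i => rfl, ?_⟩, ?_⟩
        · rw [Set.mem_iInter]
          intro i hi
          exact h (Set.mem_iUnion.2 ⟨i, hi⟩)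
        · intro hfc
          exact hf ⟨_, ⟨_, rfl⟩, hfc⟩
    calc μ (⋃₀ Set.range C)ᶜ ≤ μ ((⋃ i : Fin L.length, O (L.get i)) ∪ ⋃ c, (Q c \ C c)) :=
          measure_mono hsub
      _ ≤ μ (⋃ i : Fin L.length, O (L.get i)) + μ (⋃ c, (Q c \ C c)) := measure_union_le _ _
      _ ≤ ∑ i : Fin L.length, μ (O (L.get i)) + ∑ c, μ (Q c \ C c) :=
          add_le_add (measure_iUnion_fintype_le _ _) (measure_iUnion_fintype_le _ _)
      _ ≤ ∑ i : Fin L.length, ENNReal.ofReal η +
            ∑ c : (Fin L.length → Fin (N + 2)), ENNReal.ofReal (1 / ((M:ℝ) + 1) / k) := by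
          apply add_le_add
          · apply Finset.sum_le_sum
            intro i _
            rw [ENNReal.le_ofReal_iff_toReal_le (measure_ne_top _ _) hη]
            exact hOm _
          · apply Finset.sum_le_sum
            intro c _
            exact (hCm c).le
      _ = ENNReal.ofReal (L.length * η + 1 / ((M:ℝ) + 1)) := by
          rw [Finset.sum_const, Finset.sum_const, Finset.card_univ, Finset.card_univ,
            Fintype.card_fin, ← hk, ENNReal.ofReal_add (by positivity) hM0.le]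
          congr 1
          · rw [nsmul_eq_mul, ENNReal.ofReal_mul (by positivity), ENNReal.ofReal_natCast]
          · rw [nsmul_eq_mul, ← ENNReal.ofReal_natCast k, ← ENNReal.ofReal_mul (by positivity)]
            congr 1
            field_simp
  · rintro _ ⟨c, rfl⟩ f hf g hg n hn
    obtain ⟨i, hi⟩ := List.get_of_mem hn
    have h1 := (hCQ c hf).1 i
    have h2 := (hCQ c hg).1 i
    have h3 := Set.mem_iInter.1 (hCQ c hf).2 i
    rw [hi] at h1 h2 h3
    refine ⟨h3, ?_⟩
    have hN : (0:ℝ) < (N:ℝ) + 1 := by positivity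
    have a1 := Nat.floor_le (mul_nonneg hN.le (hG1 n f).1)
    have a2 := Nat.lt_floor_add_one (((N:ℝ) + 1) * G n f)
    have b1 := Nat.floor_le (mul_nonneg hN.le (hG1 n g).1)
    have b2 := Nat.lt_floor_add_one (((N:ℝ) + 1) * G n g)
    rw [h1] at a1 a2
    rw [h2] at b1 b2
    have h5 : |((N:ℝ) + 1) * G n f - ((N:ℝ) + 1) * G n g| ≤ 1 := by
      rw [abs_le]
      constructor <;> linarith
    rw [← mul_sub, abs_mul, abs_of_pos hN] at h5
    rw [le_div_iff₀ hN]
    linarith

theorem support {X K : Type*} [TopologicalSpace K]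
    [CompactSpace K] [T2Space K]
    [MeasurableSpace K] [BorelSpace K] (μ : Measure K) [IsProbabilityMeasure μ] [μ.Regular]
    (F : X → K → ℝ) (hc : ∀ z, Continuous (F z)) (hb : ∀ z f, F z f ∈ Icc (0 : ℝ) 1)
    (hsep : ∀ f g, (∀ x, F x f = F x g) → f = g)
    (hcov : ∀ η : ℝ, 0 < η → ∃ V : ℕ → Set X, (∀ n, Thin F μ η (V n)) ∧ ⋃ n, V n = univ) :
    MetrizableLikeSupport μ := by
  classical
  have hη : ∀ m : ℕ, (0:ℝ) < 1 / ((m:ℝ) + 1) := fun m => by positivity
  choose V hV hVc using fun m : ℕ => hcov (1 / ((m:ℝ) + 1)) (hη m)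
  set O : ℕ → ℕ → Set K := fun m n =>
    {f | ∃ x ∈ V m n, ∃ y ∈ V m n, 1 / ((m:ℝ) + 1) < |F x f - F y f|} with hOdef
  have hO : ∀ m n, IsOpen (O m n) := by
    intro m n
    have : O m n = ⋃ x ∈ V m n, ⋃ y ∈ V m n, {f | 1 / ((m:ℝ) + 1) < |F x f - F y f|} := by
      ext f; simp [hOdef]
    rw [this]
    exact isOpen_biUnion fun x _ => isOpen_biUnion fun y _ =>
      isOpen_lt continuous_const ((hc x).sub (hc y)).abs
  set G : ℕ → ℕ → K → ℝ := fun m n f => if h : (V m n).Nonempty then F h.some f else 0 with hGdef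
  have hG : ∀ m n, Continuous (G m n) := by
    intro m n
    by_cases h : (V m n).Nonempty
    · have : G m n = F h.some := by
        funext f
        simp only [hGdef, dif_pos h]
      rw [this]
      exact hc _
    · have : G m n = fun _ => 0 := by
        funext f
        simp only [hGdef, dif_neg h]
      rw [this]
      exact continuous_const
  have hG1 : ∀ m n f, G m n f ∈ Icc (0:ℝ) 1 := by
    intro m n f
    by_cases h : (V m n).Nonempty
    · simp only [hGdef, dif_pos h]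
      exact hb _ _
    · simp only [hGdef, dif_neg h]
      exact ⟨le_rfl, zero_le_one⟩
  have hA := fun (j : ℕ × List ℕ × ℕ × ℕ) => support_piece μ (O j.1) (hO j.1)
    (1 / ((j.1:ℝ) + 1)) (hη _).le (fun n => hV j.1 n) (G j.1) (hG j.1) (hG1 j.1) j.2.1 j.2.2.1 j.2.2.2
  choose A hA1 hA2 hA3 hA4 hA5 using hA
  obtain ⟨e, he⟩ := exists_surjective_nat (ℕ × List ℕ × ℕ × ℕ)
  refine ⟨fun i => A (e i), fun i => hA1 _, fun i => hA2 _, fun i => hA3 _, ?_⟩
  intro U hU hUc ε hε
  obtain ⟨F0, δ, hδ, hleb⟩ := support_lebesgue F hc hsep U hU hUc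
  obtain ⟨m, hm⟩ := exists_nat_one_div_lt
    (lt_min (show (0:ℝ) < δ / 4 by positivity)
      (show (0:ℝ) < (ε / 2) / ((F0.card:ℝ) + 1) by positivity))
  obtain ⟨N, hN⟩ := exists_nat_one_div_lt (show (0:ℝ) < δ / 2 by positivity)
  obtain ⟨M, hM⟩ := exists_nat_one_div_lt (show (0:ℝ) < ε / 2 by positivity)
  have hnx : ∀ x : X, ∃ n, x ∈ V m n := by
    intro x
    have : x ∈ ⋃ n, V m n := by rw [hVc]; trivial
    exact Set.mem_iUnion.1 this
  choose nx hnx using hnx
  obtain ⟨i, hi⟩ := he (m, F0.toList.map nx, N, M)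
  refine ⟨i, ?_, ?_⟩
  · show ∀ a ∈ A (e i), ∃ u ∈ U, a ⊆ u
    rw [hi]
    intro a ha
    rcases a.eq_empty_or_nonempty with rfl | ⟨f, hf⟩
    · have hne : Nonempty K := by
        by_contra hcon
        rw [not_nonempty_iff] at hcon
        have h1 : μ univ = 1 := measure_univ
        rw [Set.univ_eq_empty_iff.2 hcon, measure_empty] at h1
        exact zero_ne_one h1
      obtain ⟨f⟩ := hne
      obtain ⟨u, hu, _⟩ := hleb f
      exact ⟨u, hu, Set.empty_subset _⟩
    · obtain ⟨u, hu, hfu⟩ := hleb f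
      refine ⟨u, hu, fun g hg => hfu g (fun x hx => ?_)⟩
      have hmem : nx x ∈ F0.toList.map nx :=
        List.mem_map.2 ⟨x, Finset.mem_toList.2 hx, rfl⟩
      have h1 := hA5 (m, F0.toList.map nx, N, M) a ha f hf g hg (nx x) hmem
      have h2 := hA5 (m, F0.toList.map nx, N, M) a ha g hg f hf (nx x) hmem
      have hne : (V m (nx x)).Nonempty := ⟨x, hnx x⟩
      have e1 : |F x f - F hne.some f| ≤ 1 / ((m:ℝ) + 1) := by
        by_contra hcon
        push Not at hcon
        exact h1.1 ⟨x, hnx x, hne.some, hne.some_mem, hcon⟩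
      have e2 : |F hne.some g - F x g| ≤ 1 / ((m:ℝ) + 1) := by
        by_contra hcon
        push Not at hcon
        exact h2.1 ⟨hne.some, hne.some_mem, x, hnx x, hcon⟩
      have e3 : |F hne.some f - F hne.some g| ≤ 1 / ((N:ℝ) + 1) := by
        have := h1.2
        simp only [hGdef, dif_pos hne] at this
        exact this
      have hm1 := hm.trans_le (min_le_left _ _)
      have e4 := abs_sub_le (F x f) (F hne.some f) (F x g)
      have e5 := abs_sub_le (F hne.some f) (F hne.some g) (F x g)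
      linarith
  · show μ (⋃₀ A (e i))ᶜ < ENNReal.ofReal ε
    rw [hi]
    refine (hA4 _).trans_lt ?_
    rw [ENNReal.ofReal_lt_ofReal_iff hε]
    have hm2 := hm.trans_le (min_le_right _ _)
    rw [lt_div_iff₀ (by positivity)] at hm2
    have hlen : ((F0.toList.map nx).length : ℝ) = F0.card := by
      rw [List.length_map, Finset.length_toList]
    show ((F0.toList.map nx).length : ℝ) * (1 / ((m:ℝ) + 1)) + 1 / ((M:ℝ) + 1) < ε
    rw [hlen]
    have := hη m
    nlinarith

end Pool.Agent.Helper249.RC
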